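import Pool.Agent.TH957.WM.Win
import Pool.Agent.W339.ZC.Fin

/-!
# The final forms of the measures
-/

open Filter Topology Pool.Agent.H337R2 Pool.Agent.W339.ZC

namespace Pool.Agent.TH957.WM

noncomputable section

set_option autoImplicit false

lemma absorb {K K' C : ℝ} (h : K' < K) :
    ∀ᶠ q : ℕ in atTop, C * (q : ℝ) ^ (-K) ≤ (q : ℝ) ^ (-K') := by
  have h1 : Tendsto (fun q : ℕ => (q : ℝ) ^ (K - K')) atTop atTop :=
    (tendsto_rpow_atTop (by linarith)).comp tendsto_natCast_atTop_atTop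
  filter_upwards [h1.eventually_ge_atTop C, eventually_ge_atTop 1] with q hq hq1
  have hq0 : (0 : ℝ) < q := by exact_mod_cast hq1
  have e : (q : ℝ) ^ (-K') = (q : ℝ) ^ (K - K') * (q : ℝ) ^ (-K) := by
    rw [← Real.rpow_add hq0]
    congr 1
    ring
  rw [e]
  exact mul_le_mul_of_nonneg_right hq (by positivity)

/-- the windows for the zeta values themselves -/
theorem zeta_windows (s : ℕ) (hs : Odd s) (h3 : 3 ≤ s) :
    ∀ᶠ q : ℕ in atTop, ∀ P : ℕ → ℤ, ∃ j : ℕ, Odd j ∧ s + 2 ≤ j ∧ 4 * j < 21 * s ∧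
      (q : ℝ) ^ (-(min (64 * (s : ℝ)) 1038)) ≤ |q * (∑' n : ℕ, 1 / ((n : ℝ) + 1) ^ j) - P j| := by
  obtain ⟨-, -, k3⟩ := window s hs h3
  have hA : (fun δ => if δ = s - 1 then (1 : ℤ) else 0) (s - 1) ≠ 0 := by simp
  filter_upwards [k3 (fun δ => if δ = s - 1 then (1 : ℤ) else 0) hA,
    absorb (K := min (64 * (s : ℝ)) 1038) (K' := min (64 * (s : ℝ)) 1038 - 1 / 10) (C := 2 ^ (6 * s))
      (by linarith)] with q hq habs P
  obtain ⟨i, hi1, hi2, hi3, hi4⟩ := hq (fun i => (-1) ^ (s - 1) * (Nat.choose (i - 1 + (s - 1)) (i - 1) : ℤ) * P (i + (s - 1)))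
  obtain ⟨u, hu⟩ := hs
  obtain ⟨v, hv⟩ := hi1
  refine ⟨i + (s - 1), ⟨u + v, by omega⟩, by omega, by omega, ?_⟩
  have hZ : Zc (s - 1) (fun δ => (((if δ = s - 1 then (1 : ℤ) else 0 : ℤ)) : ℚ)) i =
      ((-1) ^ (s - 1) * (Nat.choose (i - 1 + (s - 1)) (i - 1) : ℝ)) * zr (i + (s - 1)) := by
    unfold Zc
    rw [Finset.sum_eq_single (s - 1)]
    · unfold Cf
      push_cast
      simp
    · intro δ _ hδ
      beta_reduce
      rw [if_neg hδ]
      simp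
    · intro h
      exact absurd (Finset.mem_range.2 (by omega)) h
  rw [hZ] at hi4
  have e1 : (q : ℝ) * (((-1) ^ (s - 1) * (Nat.choose (i - 1 + (s - 1)) (i - 1) : ℝ)) * zr (i + (s - 1))) -
      (((-1) ^ (s - 1) * (Nat.choose (i - 1 + (s - 1)) (i - 1) : ℤ) * P (i + (s - 1)) : ℤ) : ℝ) =
      ((-1) ^ (s - 1) * (Nat.choose (i - 1 + (s - 1)) (i - 1) : ℝ)) * (q * zr (i + (s - 1)) - P (i + (s - 1))) := by
    push_cast
    ring
  rw [e1, abs_mul, abs_mul, abs_pow, abs_neg, abs_one, one_pow, one_mul, Nat.abs_cast] at hi4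
  have h5 : ((Nat.choose (i - 1 + (s - 1)) (i - 1) : ℕ) : ℝ) ≤ 2 ^ (6 * s) := by
    have h6 : Nat.choose (i - 1 + (s - 1)) (i - 1) ≤ 2 ^ (i - 1 + (s - 1)) := Nat.choose_le_two_pow _ _
    have h7 : 2 ^ (i - 1 + (s - 1)) ≤ 2 ^ (6 * s) := Nat.pow_le_pow_right (by norm_num) (by omega)
    exact_mod_cast h6.trans h7
  have h6 : (2 : ℝ) ^ (6 * s) * (q : ℝ) ^ (-(min (64 * (s : ℝ)) 1038)) ≤ 2 ^ (6 * s) * |q * zr (i + (s - 1)) - P (i + (s - 1))| := by
    refine habs.trans (hi4.trans ?_)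
    exact mul_le_mul_of_nonneg_right h5 (abs_nonneg _)
  exact le_of_mul_le_mul_left h6 (by positivity)

lemma desc_le_fact (n k : ℕ) : n.descFactorial k ≤ n.factorial := by
  rcases Nat.lt_or_ge n k with h | h
  · rw [Nat.descFactorial_eq_zero_iff_lt.2 h]
    exact Nat.zero_le _
  · have h1 := Nat.factorial_mul_descFactorial h
    have h2 := Nat.factorial_pos (n - k)
    nlinarith

/-- the integer weights -/
def wtZ (k s : ℕ) (a : ℕ → ℤ) (δ : ℕ) : ℤ :=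
  if k ≤ δ ∧ δ ≤ k + s then (-1) ^ δ * (a (δ - k) * (δ.descFactorial k : ℤ)) else 0

lemma wtZ_cast (k s : ℕ) (a : ℕ → ℤ) (δ : ℕ) : ((wtZ k s a δ : ℤ) : ℚ) = wt k s (fun l => (a l : ℚ)) δ := by
  unfold wtZ wt
  split_ifs with h
  · push_cast
    congr 2
    have h1 := Nat.factorial_mul_descFactorial h.1
    have h2 : (((δ - k).factorial : ℕ) : ℚ) ≠ 0 := by exact_mod_cast Nat.factorial_ne_zero _
    rw [eq_div_iff h2, mul_comm]
    exact_mod_cast h1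
  · simp

lemma wtZ_val (k s : ℕ) (a : ℕ → ℤ) (l : ℕ) (hl : l ≤ s) :
    wtZ k s a (k + l) = (-1) ^ (k + l) * (a l * ((k + l).descFactorial k : ℤ)) := by
  unfold wtZ
  rw [if_pos ⟨by omega, by omega⟩, Nat.add_sub_cancel_left]

lemma wtZ_ne (k s : ℕ) (a : ℕ → ℤ) (l : ℕ) (hl : l ≤ s) (ha : a l ≠ 0) : wtZ k s a (k + l) ≠ 0 := by
  rw [wtZ_val k s a l hl]
  have h1 : 0 < (k + l).descFactorial k := Nat.descFactorial_pos.2 (by omega)
  have h2 : ((k + l).descFactorial k : ℤ) ≠ 0 := by exact_mod_cast h1.ne'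
  exact mul_ne_zero (pow_ne_zero _ (by norm_num)) (mul_ne_zero ha h2)

lemma wtZ_abs (k s : ℕ) (a : ℕ → ℤ) (H : ℕ) (ha : ∀ l, l ≤ s → |a l| ≤ H) (δ : ℕ) :
    |wtZ k s a δ| ≤ ((k + s).factorial * H : ℕ) := by
  unfold wtZ
  split_ifs with h
  · rw [abs_mul, abs_pow, abs_neg, abs_one, one_pow, one_mul, abs_mul, Nat.abs_cast]
    have h1 := ha (δ - k) (by omega)
    have h2 : δ.descFactorial k ≤ (k + s).factorial :=
      (desc_le_fact δ k).trans (Nat.factorial_le h.2)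
    have h3 : ((δ.descFactorial k : ℕ) : ℤ) ≤ ((k + s).factorial : ℤ) := by exact_mod_cast h2
    push_cast
    rw [mul_comm ((k + s).factorial : ℤ)]
    exact mul_le_mul h1 h3 (by positivity) (by positivity)
  · rw [abs_zero]
    positivity

/-- the jet -/
def Jt (s : ℕ) (a : ℕ → ℤ) (j : ℕ) : ℝ := ∑ l ∈ Finset.range (s + 1),
  (a l : ℝ) * (Nat.choose (j + l - 1) l : ℝ) * ∑' n : ℕ, 1 / ((n : ℝ) + 1) ^ (j + l)

lemma Zc_wtZ (k s : ℕ) (a : ℕ → ℤ) (i : ℕ) (hi : 1 ≤ i) :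
    Zc (k + s) (fun δ => ((wtZ k s a δ : ℤ) : ℚ)) i = ((i + k - 1).descFactorial k : ℝ) * Jt s a (i + k) := by
  have e0 : (((i + k - 1).descFactorial k : ℕ) : ℚ) = ((i + k - 1).factorial : ℚ) / ((i - 1).factorial : ℚ) := by
    have h1 := Nat.factorial_mul_descFactorial (show k ≤ i + k - 1 by omega)
    rw [show i + k - 1 - k = i - 1 by omega] at h1
    have h2 : (((i - 1).factorial : ℕ) : ℚ) ≠ 0 := by exact_mod_cast Nat.factorial_ne_zero _
    rw [eq_div_iff h2, mul_comm]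
    exact_mod_cast h1
  unfold Zc Jt
  rw [add_assoc k s 1, Finset.sum_range_add, Finset.sum_eq_zero (s := Finset.range k), zero_add, Finset.mul_sum]
  · apply Finset.sum_congr rfl
    intro l hl
    rw [Finset.mem_range] at hl
    beta_reduce
    rw [wtZ_cast, wt_Cf k s (fun l => (a l : ℚ)) l i (by omega) hi, ← e0, ← add_assoc i k l]
    push_cast
    unfold zr
    ring
  · intro δ hδ
    rw [Finset.mem_range] at hδ
    have : wtZ k s a δ = 0 := by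
      unfold wtZ
      rw [if_neg (by omega)]
    beta_reduce
    rw [this]
    simp

lemma desc_le (i k b : ℕ) (hi : 4 * (i + b) ≤ 21 * b + 4) (hk : k ≤ b) :
    ((i + k - 1).descFactorial k : ℝ) ≤ ((7 * b + 4).factorial : ℝ) := by
  have h1 : (i + k - 1).descFactorial k ≤ (i + k - 1).factorial := desc_le_fact _ _
  have h2 : (i + k - 1).factorial ≤ (7 * b + 4).factorial := Nat.factorial_le (by omega)
  exact_mod_cast h1.trans h2

/-- The uniform measure for jets. -/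
theorem jets_uniform (s j0 : ℕ) (h3 : 3 ≤ j0) (hpar : Odd (j0 + s)) (h5 : 5 ≤ j0 + s) :
    ∀ᶠ H : ℕ in atTop, ∀ a : ℕ → ℤ, (∀ l, l ≤ s → |a l| ≤ H) → (∃ l, l ≤ s ∧ a l ≠ 0) → ∀ P : ℕ → ℤ,
      ∃ j : ℕ, j % 2 = j0 % 2 ∧ j0 ≤ j ∧ 4 * j + 42 ≤ 21 * j0 + 17 * s ∧
        (H : ℝ) ^ (-(168 * ((j0 : ℝ) + s - 2))) ≤ |Jt s a j - P j| := by
  obtain ⟨k, rfl⟩ : ∃ k, j0 = k + 3 := ⟨j0 - 3, by omega⟩
  have hb : Odd (k + s + 1) := by
    obtain ⟨y, hy⟩ := hpar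
    exact ⟨y - 1, by omega⟩
  obtain ⟨k1, -, -⟩ := window (k + s + 1) hb (by omega)
  set F : ℕ := (k + s).factorial with hF
  have hF0 : 0 < F := Nat.factorial_pos _
  have hFr : (0 : ℝ) < F := by exact_mod_cast hF0
  set K : ℝ := 168 * (((k + 3 : ℕ) : ℝ) + s - 2) with hK
  set K' : ℝ := 168 * ((k + s + 1 : ℕ) : ℝ) - 1 / 2 with hK'
  have hKK : K' < K := by
    rw [hK, hK']
    push_cast
    linarith
  set c0 : ℝ := ((7 * (k + s + 1) + 4).factorial : ℝ) with hc0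
  have hc00 : 0 < c0 := by rw [hc0]; positivity
  have hmul : Tendsto (fun H : ℕ => F * H) atTop atTop := by
    apply tendsto_atTop_mono (f := fun X : ℕ => X) _ tendsto_id
    intro X
    exact Nat.le_mul_of_pos_left X hF0
  filter_upwards [hmul.eventually k1, absorb (C := c0 * (F : ℝ) ^ K') hKK, eventually_ge_atTop 1]
    with H hH habs hH1 a ha hane P
  have hH0 : (0 : ℝ) < H := by exact_mod_cast hH1
  obtain ⟨i, hi1, hi2, hi3, hi4⟩ := hH (wtZ k s a) (fun δ _ => wtZ_abs k s a H ha δ) (by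
    obtain ⟨l, hl, hal⟩ := hane
    exact ⟨k + l, by omega, wtZ_ne k s a l hl hal⟩) (fun i => ((i + k - 1).descFactorial k : ℤ) * P (i + k))
  refine ⟨i + k, ?_, by omega, by omega, ?_⟩
  · obtain ⟨y, hy⟩ := hi1
    omega
  rw [show k + s + 1 - 1 = k + s by omega, Zc_wtZ k s a i (by omega)] at hi4
  have e1 : ((i + k - 1).descFactorial k : ℝ) * Jt s a (i + k) -
      ((((i + k - 1).descFactorial k : ℤ) * P (i + k) : ℤ) : ℝ) =
      ((i + k - 1).descFactorial k : ℝ) * (Jt s a (i + k) - P (i + k)) := by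
    push_cast
    ring
  rw [e1, abs_mul, Nat.abs_cast] at hi4
  have h6 := desc_le i k (k + s + 1) hi3 (by omega)
  have h7 : c0 * (H : ℝ) ^ (-K) ≤ c0 * |Jt s a (i + k) - P (i + k)| := by
    have h8 : (((F * H : ℕ) : ℝ)) ^ (-K') = (F : ℝ) ^ (-K') * (H : ℝ) ^ (-K') := by
      push_cast
      rw [Real.mul_rpow hFr.le hH0.le]
    rw [h8] at hi4
    have h9 : (F : ℝ) ^ (-K') * (F : ℝ) ^ K' = 1 := by
      rw [← Real.rpow_add hFr]
      simp
    have h10 : (F : ℝ) ^ (-K') * (c0 * (F : ℝ) ^ K' * (H : ℝ) ^ (-K)) ≤ (F : ℝ) ^ (-K') * (H : ℝ) ^ (-K') :=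
      mul_le_mul_of_nonneg_left habs (by positivity)
    have h11 : (F : ℝ) ^ (-K') * (c0 * (F : ℝ) ^ K' * (H : ℝ) ^ (-K)) = c0 * (H : ℝ) ^ (-K) := by
      calc _ = ((F : ℝ) ^ (-K') * (F : ℝ) ^ K') * (c0 * (H : ℝ) ^ (-K)) := by ring
        _ = _ := by rw [h9, one_mul]
    rw [h11] at h10
    exact h10.trans (hi4.trans (mul_le_mul_of_nonneg_right h6 (abs_nonneg _)))
  exact le_of_mul_le_mul_left h7 hc00

/-- The measure for fixed jets. -/
theorem jets_fixed (s j0 : ℕ) (h3 : 3 ≤ j0) (hpar : Odd (j0 + s)) (h5 : 5 ≤ j0 + s) (a : ℕ → ℤ)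
    (ha : ∃ l, l ≤ s ∧ a l ≠ 0) :
    ∀ᶠ q : ℕ in atTop, ∀ P : ℕ → ℤ,
      ∃ j : ℕ, j % 2 = j0 % 2 ∧ j0 ≤ j ∧ 4 * j + 42 ≤ 21 * j0 + 17 * s ∧
        (q : ℝ) ^ (-(1188 : ℝ)) ≤ |q * Jt s a j - P j| := by
  obtain ⟨k, rfl⟩ : ∃ k, j0 = k + 3 := ⟨j0 - 3, by omega⟩
  have hb : Odd (k + s + 1) := by
    obtain ⟨y, hy⟩ := hpar
    exact ⟨y - 1, by omega⟩
  obtain ⟨-, k2, -⟩ := window (k + s + 1) hb (by omega)
  obtain ⟨l1, hl1, hal1, hmax⟩ : ∃ l1, l1 ≤ s ∧ a l1 ≠ 0 ∧ ∀ l, l ≤ s → l1 < l → a l = 0 := by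
    classical
    obtain ⟨l0, hl0, ha0⟩ := ha
    refine ⟨Nat.findGreatest (fun l => a l ≠ 0) s, Nat.findGreatest_le _,
      Nat.findGreatest_spec (P := fun l => a l ≠ 0) hl0 ha0, fun l hl hlt => ?_⟩
    by_contra hne
    exact Nat.findGreatest_is_greatest hlt hl hne
  set c0 : ℝ := ((7 * (k + s + 1) + 4).factorial : ℝ) with hc0
  have hc00 : 0 < c0 := by rw [hc0]; positivity
  filter_upwards [k2 (k + l1) (by omega) (wtZ k s a) (wtZ_ne k s a l1 hl1 hal1),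
    absorb (K := 1188) (K' := 1187.9) (C := c0) (by norm_num)] with q hq habs P
  obtain ⟨i, hi1, hi2, hi3, hi4⟩ := hq (fun i => ((i + k - 1).descFactorial k : ℤ) * P (i + k))
  refine ⟨i + k, ?_, by omega, by omega, ?_⟩
  · obtain ⟨y, hy⟩ := hi1
    omega
  have hZ : Zc (k + l1) (fun δ => ((wtZ k s a δ : ℤ) : ℚ)) i = Zc (k + s) (fun δ => ((wtZ k s a δ : ℤ) : ℚ)) i := by
    have h6 := Zc_top (β := k + l1) (b := k + s + 1) (by omega) (fun δ => ((wtZ k s a δ : ℤ) : ℚ)) (by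
      intro δ h7 h8
      have : wtZ k s a δ = 0 := by
        unfold wtZ
        rw [if_pos (by omega), hmax (δ - k) (by omega) (by omega)]
        simp
      rw [this]
      simp) i
    rw [show k + s + 1 - 1 = k + s by omega] at h6
    exact h6.symm
  rw [hZ, Zc_wtZ k s a i (by omega)] at hi4
  have e1 : (q : ℝ) * (((i + k - 1).descFactorial k : ℝ) * Jt s a (i + k)) -
      ((((i + k - 1).descFactorial k : ℤ) * P (i + k) : ℤ) : ℝ) =
      ((i + k - 1).descFactorial k : ℝ) * (q * Jt s a (i + k) - P (i + k)) := by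
    push_cast
    ring
  rw [e1, abs_mul, Nat.abs_cast] at hi4
  have h6 := desc_le i k (k + s + 1) hi3 (by omega)
  have h7 : c0 * (q : ℝ) ^ (-(1188 : ℝ)) ≤ c0 * |q * Jt s a (i + k) - P (i + k)| :=
    habs.trans (hi4.trans (mul_le_mul_of_nonneg_right h6 (abs_nonneg _)))
  exact le_of_mul_le_mul_left h7 hc00

end

end Pool.Agent.TH957.WM
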