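import Pool.Agent.H337R2.Arch

/-!
# An exponential bound for the coefficients of the linear forms
-/

open Polynomial Pool.Agent.H337R2

namespace Pool.Agent.TH957.WM

noncomputable section

set_option autoImplicit false

lemma AB_linX {a : ℚ} (ha : 1 ≤ |a|) : AB 1 |a| (PowerSeries.X + PowerSeries.C a) := by
  intro j
  rw [map_add]
  rcases j with _ | _ | j
  · simp
  · simpa [PowerSeries.coeff_C] using ha
  · simp [PowerSeries.coeff_C, PowerSeries.coeff_X]

lemma AB_iv {a : ℚ} (ha : 1 ≤ |a|) : AB 1 |a|⁻¹ (iv a) := by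
  intro j
  have h0 : 0 < |a| := by linarith
  simp only [Pool.Agent.H337R2.iv, PowerSeries.coeff_mk]
  simp only [abs_div, abs_pow, abs_neg, abs_one, one_pow, mul_one, one_div]
  apply inv_anti₀ h0
  exact le_self_pow₀ ha (by omega)

lemma AB_lin2 {a B : ℚ} (hB : 2 ≤ B) (ha : |a| ≤ B) :
    AB 1 B (PowerSeries.C 2 * PowerSeries.X + PowerSeries.C a) := by
  intro j
  rw [map_add]
  rcases j with _ | _ | j
  · simpa using ha
  · simpa [PowerSeries.coeff_C] using hB
  · simp [PowerSeries.coeff_C]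
    linarith

/-- products of consecutive distances -/
lemma prod_dist (k L : ℕ) (hk : L < k) :
    ∏ m ∈ Finset.Icc 1 L, ((k : ℚ) - m) = (L.factorial : ℚ) * ((k - 1).choose L : ℚ) := by
  rw [← Nat.cast_mul, ← Nat.descFactorial_eq_factorial_mul_choose, Nat.descFactorial_eq_prod_range,
    Nat.cast_prod]
  have e : Finset.Icc 1 L = Finset.Ico 1 (L + 1) := by ext; simp
  rw [e, Finset.prod_Ico_eq_prod_range]
  apply Finset.prod_congr (by simp)
  intro i hi
  rw [Finset.mem_range] at hi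
  rw [Nat.cast_sub (by omega), Nat.cast_sub (by omega)]
  push_cast
  ring

lemma choose_le_two_pow' (a b c : ℕ) (h : a ≤ c) : ((a.choose b : ℕ) : ℚ) ≤ 2 ^ c := by
  have h1 : a.choose b ≤ 2 ^ a := Nat.choose_le_two_pow a b
  have h2 : 2 ^ a ≤ 2 ^ c := Nat.pow_le_pow_right (by norm_num) h
  exact_mod_cast h1.trans h2

/-- the distances from `k` to the points of an interval, the point `k` left out -/
def gd (k m : ℕ) : ℚ := if m = k then 1 else |-(k : ℚ) + m|

lemma gd_pos (k m : ℕ) : 0 < gd k m := by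
  unfold gd
  split_ifs with h
  · exact one_pos
  · rw [abs_pos]
    intro h0
    apply h
    have : (m : ℚ) = k := by linarith
    exact_mod_cast this

lemma gd_right (k i : ℕ) (hi : 1 ≤ i) : gd k (k + i) = i := by
  unfold gd
  rw [if_neg (by omega)]
  push_cast
  rw [neg_add_cancel_left, Nat.abs_cast]

lemma gd_left (k i : ℕ) (hi : 1 ≤ i) (hik : i ≤ k) : gd k (k - i) = i := by
  unfold gd
  rw [if_neg (by omega), Nat.cast_sub hik]
  have : -(k : ℚ) + (k - i) = -(i : ℚ) := by ring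
  rw [this, abs_neg, Nat.abs_cast]

lemma prod_right (k L : ℕ) : ∏ m ∈ Finset.Ico (k + 1) (k + 1 + L), gd k m = (L.factorial : ℚ) := by
  induction L with
  | zero => simp
  | succ L ih =>
    rw [← add_assoc, Finset.prod_Ico_succ_top (by omega), ih, Nat.factorial_succ,
      show k + 1 + L = k + (L + 1) by ring, gd_right k (L + 1) (by omega)]
    push_cast
    ring

lemma prod_left (k L : ℕ) (hL : L ≤ k) : ∏ m ∈ Finset.Ico (k - L) k, gd k m = (L.factorial : ℚ) := by
  induction L with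
  | zero => simp
  | succ L ih =>
    rw [Finset.prod_eq_prod_Ico_succ_bot (by omega), show k - (L + 1) + 1 = k - L by omega,
      ih (by omega), Nat.factorial_succ, gd_left k (L + 1) (by omega) hL]
    push_cast
    ring

lemma gd_ge (k m r : ℕ) (h : k + r ≤ m ∨ m + r ≤ k) (hr : 1 ≤ r) : (r : ℚ) ≤ gd k m := by
  unfold gd
  rw [if_neg (by omega)]
  rcases h with h | h
  · refine le_trans ?_ (le_abs_self _)
    have : ((k + r : ℕ) : ℚ) ≤ m := by exact_mod_cast h
    push_cast at this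
    linarith
  · refine le_trans ?_ (neg_le_abs _)
    have : ((m + r : ℕ) : ℚ) ≤ k := by exact_mod_cast h
    push_cast at this
    linarith

/-- the factorial of the length against the product of the distances -/
lemma fact_le (k a L : ℕ) :
    (L.factorial : ℚ) * ∏ m ∈ Finset.Icc a (a + L), (gd k m)⁻¹ ≤ 2 ^ L := by
  rw [Finset.prod_inv_distrib]
  have hpos : 0 < ∏ m ∈ Finset.Icc a (a + L), gd k m := Finset.prod_pos fun m _ => gd_pos k m
  rw [← div_eq_mul_inv, div_le_iff₀ hpos]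
  have e : Finset.Icc a (a + L) = Finset.Ico a (a + L + 1) := by
    ext x
    rw [Finset.mem_Icc, Finset.mem_Ico]
    omega
  rw [e]
  have h2 : (1 : ℚ) ≤ 2 ^ L := one_le_pow₀ (by norm_num)
  have hf0 : (0 : ℚ) < L.factorial := by exact_mod_cast Nat.factorial_pos L
  have hfs : (L.factorial : ℚ) ≤ ∏ i ∈ Finset.range (L + 1), ((i : ℚ) + 1) := by
    have h3 : L.factorial ≤ (L + 1).factorial := Nat.factorial_le (by omega)
    have h4 : (∏ i ∈ Finset.range (L + 1), (i + 1)) = (L + 1).factorial :=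
      Finset.prod_range_add_one_eq_factorial _
    have h5 : ((∏ i ∈ Finset.range (L + 1), (i + 1) : ℕ) : ℚ) = ∏ i ∈ Finset.range (L + 1), ((i : ℚ) + 1) := by
      push_cast; rfl
    rw [← h5, h4]
    exact_mod_cast h3
  have hI : ∏ m ∈ Finset.Ico a (a + L + 1), gd k m = ∏ i ∈ Finset.range (L + 1), gd k (a + i) := by
    rw [Finset.prod_Ico_eq_prod_range, show a + L + 1 - a = L + 1 by omega]
  have hgo : (L.factorial : ℚ) ≤ ∏ m ∈ Finset.Ico a (a + L + 1), gd k m →
      (L.factorial : ℚ) ≤ 2 ^ L * ∏ m ∈ Finset.Ico a (a + L + 1), gd k m := by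
    intro h
    have h3 : 0 < ∏ m ∈ Finset.Ico a (a + L + 1), gd k m := Finset.prod_pos fun m _ => gd_pos k m
    nlinarith
  rcases lt_or_ge k a with hka | hka
  · apply hgo
    rw [hI]
    refine hfs.trans (Finset.prod_le_prod (fun i _ => by positivity) fun i _ => ?_)
    have := gd_ge k (a + i) (i + 1) (Or.inl (by omega)) (by omega)
    push_cast at this
    exact this
  rcases lt_or_ge (a + L) k with hkb | hkb
  · apply hgo
    rw [hI, ← Finset.prod_range_reflect]
    refine hfs.trans (Finset.prod_le_prod (fun i _ => by positivity) fun i hi => ?_)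
    rw [Finset.mem_range] at hi
    have := gd_ge k (a + (L + 1 - 1 - i)) (i + 1) (Or.inr (by omega)) (by omega)
    push_cast at this
    exact this
  · have h3 := prod_left k (k - a) (by omega)
    rw [show k - (k - a) = a by omega] at h3
    have h4 := prod_right k (a + L - k)
    rw [show k + 1 + (a + L - k) = a + L + 1 by omega] at h4
    have h5 : ∏ m ∈ Finset.Ico a (a + L + 1), gd k m =
        ((k - a).factorial : ℚ) * ((a + L - k).factorial : ℚ) := by
      rw [← Finset.prod_Ico_consecutive (fun m => gd k m) hka (show k ≤ a + L + 1 by omega), h3,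
        Finset.prod_eq_prod_Ico_succ_bot (by omega : k < a + L + 1), h4]
      have : gd k k = 1 := by simp [gd]
      rw [this, one_mul]
    rw [h5]
    have h6 : L.choose (k - a) * (k - a).factorial * (a + L - k).factorial = L.factorial := by
      have := Nat.choose_mul_factorial_mul_factorial (show k - a ≤ L by omega)
      rw [show L - (k - a) = a + L - k by omega] at this
      exact this
    have h7 : L.choose (k - a) ≤ 2 ^ L := Nat.choose_le_two_pow _ _
    have h8 : L.factorial ≤ 2 ^ L * ((k - a).factorial * (a + L - k).factorial) := by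
      rw [← h6, mul_assoc]
      exact Nat.mul_le_mul_right _ h7
    exact_mod_cast h8

lemma abs_ge_one {k m : ℕ} (h : m ≠ k) : (1 : ℚ) ≤ |-(k : ℚ) + m| := by
  have := gd_ge k m 1 (by omega) le_rfl
  unfold gd at this
  rw [if_neg h] at this
  exact_mod_cast this

lemma poles_le (h c n : ℕ) (ds : List ℕ) (hn : 1 ≤ n)
    (hc : ∀ d ∈ ds, c < d) (h2 : ∀ d ∈ ds, 2 * d < h) {k : ℕ} (hk : k ∈ ss h c n) :
    (ds.map fun d => (Nat.factorial ((h - 2 * d) * n) : ℚ)).prod *
      ∏ m ∈ (ss h c n).erase k, (|-(k : ℚ) + m|⁻¹) ^ mu h n ds m ≤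
        2 ^ ((ds.map fun d => h - 2 * d).sum * n) := by
  have e1 : ∏ m ∈ (ss h c n).erase k, (|-(k : ℚ) + m|⁻¹) ^ mu h n ds m =
      ∏ m ∈ ss h c n, ((gd k m)⁻¹) ^ mu h n ds m := by
    rw [← Finset.mul_prod_erase (ss h c n) _ hk]
    have : gd k k = 1 := by simp [gd]
    rw [this, inv_one, one_pow, one_mul]
    apply Finset.prod_congr rfl
    intro m hm
    rw [Finset.mem_erase] at hm
    unfold gd
    rw [if_neg hm.1]
  rw [e1, prod_mu h c n ds hn hc h2, ← List.prod_map_mul]
  have key : ∀ l : List ℕ, (∀ d ∈ l, 2 * d < h) →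
      (l.map fun d => (Nat.factorial ((h - 2 * d) * n) : ℚ) *
        ∏ m ∈ Finset.Icc (d * n) (h * n - d * n), (gd k m)⁻¹).prod ≤ 2 ^ ((l.map fun d => h - 2 * d).sum * n) := by
    intro l hl
    induction l with
    | nil => simp
    | cons d l ih =>
      rw [List.map_cons, List.prod_cons, List.map_cons, List.sum_cons, add_mul, pow_add]
      have hd := hl d (by simp)
      have e2 : h * n - d * n = d * n + (h - 2 * d) * n := by
        have : h * n = (h - 2 * d) * n + 2 * (d * n) := by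
          have : h = (h - 2 * d) + 2 * d := by omega
          conv_lhs => rw [this]
          ring
        omega
      apply mul_le_mul _ (ih fun d' hd' => hl d' (List.mem_cons_of_mem _ hd')) _ (by positivity)
      · rw [e2]
        exact fact_le k (d * n) ((h - 2 * d) * n)
      · apply List.prod_nonneg
        intro x hx
        rw [List.mem_map] at hx
        obtain ⟨d', _, rfl⟩ := hx
        apply mul_nonneg (by positivity)
        exact Finset.prod_nonneg fun m _ => (inv_pos.2 (gd_pos k m)).le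
  exact key ds h2

lemma zeros_le (b h c n : ℕ) (hn : 1 ≤ n) {k : ℕ} (hk : k ∈ ss h c n) :
    ∏ m ∈ Finset.Icc 1 (c * n), (|-(k : ℚ) + m| ^ b * |-(k : ℚ) + ((h : ℚ) * n - m)| ^ b) ≤
      ((c * n).factorial : ℚ) ^ (2 * b) * 2 ^ (b * (h * n)) := by
  rw [ss, Finset.mem_Icc] at hk
  have hkn : k ≤ h * n := by omega
  have e1 : ∀ m ∈ Finset.Icc 1 (c * n), |-(k : ℚ) + m| ^ b * |-(k : ℚ) + ((h : ℚ) * n - m)| ^ b =
      (((k : ℚ) - m) * (((h * n - k : ℕ) : ℚ) - m)) ^ b := by
    intro m hm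
    rw [Finset.mem_Icc] at hm
    have h3 : (m : ℚ) ≤ k := by exact_mod_cast (by omega : m ≤ k)
    have h4 : ((k + m : ℕ) : ℚ) ≤ ((h * n : ℕ) : ℚ) := by exact_mod_cast (by omega : k + m ≤ h * n)
    push_cast at h4
    rw [mul_pow, Nat.cast_sub hkn]
    push_cast
    congr 1
    · rw [show -(k : ℚ) + m = -((k : ℚ) - m) by ring, abs_neg, abs_of_nonneg (by linarith)]
    · rw [show -(k : ℚ) + ((h : ℚ) * n - m) = (h : ℚ) * n - k - m by ring, abs_of_nonneg (by linarith)]
  rw [Finset.prod_congr rfl e1, Finset.prod_pow, Finset.prod_mul_distrib,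
    prod_dist k (c * n) (by omega), prod_dist (h * n - k) (c * n) (by omega)]
  have h5 := choose_le_two_pow' (k - 1) (c * n) k (by omega)
  have h6 := choose_le_two_pow' (h * n - k - 1) (c * n) (h * n - k) (by omega)
  have h7 : (0 : ℚ) ≤ ((c * n).factorial : ℚ) := by positivity
  calc (((c * n).factorial : ℚ) * ((k - 1).choose (c * n) : ℚ) *
        (((c * n).factorial : ℚ) * ((h * n - k - 1).choose (c * n) : ℚ))) ^ b
      ≤ (((c * n).factorial : ℚ) * 2 ^ k * (((c * n).factorial : ℚ) * 2 ^ (h * n - k))) ^ b := by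
        gcongr
    _ = _ := by
        have e2 : (2 : ℚ) ^ k * 2 ^ (h * n - k) = 2 ^ (h * n) := by
          rw [← pow_add]
          congr 1
          omega
        rw [show ((c * n).factorial : ℚ) * 2 ^ k * (((c * n).factorial : ℚ) * 2 ^ (h * n - k)) =
          ((c * n).factorial : ℚ) ^ 2 * (2 ^ k * 2 ^ (h * n - k)) by ring, e2, mul_pow, ← pow_mul, ← pow_mul]
        congr 2
        ring

theorem pfc_le (b h c n : ℕ) (ds : List ℕ) (hn : 1 ≤ n)
    (hc : ∀ d ∈ ds, c < d) (h2 : ∀ d ∈ ds, 2 * d < h) {k : ℕ} (hk : k ∈ ss h c n) (j : ℕ) :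
    |pfc (ss h c n) (mu h n ds) (PP b h c n ds) k j| ≤
      2 ^ ((b * h + (ds.map fun d => h - 2 * d).sum) * n) * (h * n + 2) *
        (1 + 2 * b * (c * n) + ∑ m ∈ ss h c n, mu h n ds m : ℚ) ^ j := by
  have hk' := hk
  rw [ss, Finset.mem_Icc] at hk'
  have hkn : (k : ℚ) ≤ (h : ℚ) * n := by exact_mod_cast (by omega : k ≤ h * n)
  have hk0 : (0 : ℚ) ≤ k := by positivity
  unfold pfc PP NN VV
  rw [(TS (-(k : ℚ))).map_mul, (TS (-(k : ℚ))).map_mul, TS_C, TS_lin2, map_prod]
  have hB2 : (2 : ℚ) ≤ (h : ℚ) * n + 2 := by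
    have : (0 : ℚ) ≤ (h : ℚ) * n := by positivity
    linarith
  have e1 : AB 0 (cst b h c n ds) (PowerSeries.C (cst b h c n ds)) :=
    AB.C (by rw [abs_of_nonneg (cst_nonneg _ _ _ _ _)])
  have e2 : AB 1 ((h : ℚ) * n + 2) (PowerSeries.C 2 * PowerSeries.X + PowerSeries.C (2 * (-(k : ℚ)) + (h : ℚ) * n)) := by
    apply AB_lin2 hB2
    rw [abs_le]
    constructor <;> linarith
  have e3 : AB (∑ x ∈ Finset.Icc 1 (c * n), ((b : ℚ) * 1 + b * 1))
      (∏ m ∈ Finset.Icc 1 (c * n), (|-(k : ℚ) + m| ^ b * |-(k : ℚ) + ((h : ℚ) * n - m)| ^ b))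
      (∏ x ∈ Finset.Icc 1 (c * n), (TS (-(k : ℚ))) ((X + C (x : ℚ)) ^ b * (X + C ((h : ℚ) * n - x)) ^ b)) := by
    apply AB.prod
    · intro i _; positivity
    · intro m _; positivity
    · intro m hm
      rw [Finset.mem_Icc] at hm
      rw [map_mul, map_pow, map_pow, TS_lin, TS_lin]
      have h3 : (1 : ℚ) ≤ |-(k : ℚ) + m| := abs_ge_one (by omega)
      have h4 : (1 : ℚ) ≤ |-(k : ℚ) + ((h : ℚ) * n - m)| := by
        refine le_trans ?_ (le_abs_self _)
        have : ((k + m + 1 : ℕ) : ℚ) ≤ ((h * n : ℕ) : ℚ) := by exact_mod_cast (by omega : k + m + 1 ≤ h * n)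
        push_cast at this
        linarith
      apply AB.mul (by positivity) (by positivity) (by positivity) (by positivity)
      · exact AB.pow zero_le_one (by positivity) (AB_linX h3) b
      · exact AB.pow zero_le_one (by positivity) (AB_linX h4) b
  have e4 : AB (∑ m ∈ (ss h c n).erase k, ((mu h n ds m : ℚ) * 1))
      (∏ m ∈ (ss h c n).erase k, (|-(k : ℚ) + m|⁻¹) ^ mu h n ds m)
      (∏ m ∈ (ss h c n).erase k, iv (-(k : ℚ) + m) ^ mu h n ds m) := by
    apply AB.prod
    · intro i _; positivity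
    · intro i _; positivity
    · intro m hm
      rw [Finset.mem_erase] at hm
      exact AB.pow zero_le_one (by positivity) (AB_iv (abs_ge_one hm.1)) _
  have hc0 := cst_nonneg b h c n ds
  have e5 := AB.mul (by positivity) (by positivity) (by positivity) (by positivity)
    (AB.mul (by positivity) (by positivity) (by positivity) (by positivity)
      (AB.mul le_rfl zero_le_one hc0 (by positivity) e1 e2) e3) e4
  have e6 := e5 j
  refine e6.trans ?_
  have a1 := zeros_le b h c n hn hk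
  have a2 := poles_le h c n ds hn hc h2 hk
  have a3 : (0 + 1 + ∑ x ∈ Finset.Icc 1 (c * n), ((b : ℚ) * 1 + b * 1) +
      ∑ m ∈ (ss h c n).erase k, ((mu h n ds m : ℚ) * 1)) ≤
      (1 + 2 * b * (c * n) + ∑ m ∈ ss h c n, mu h n ds m : ℚ) := by
    have : ∑ m ∈ (ss h c n).erase k, ((mu h n ds m : ℚ) * 1) ≤ ∑ m ∈ ss h c n, (mu h n ds m : ℚ) := by
      simp only [mul_one]
      exact Finset.sum_le_sum_of_subset_of_nonneg (Finset.erase_subset _ _) fun _ _ _ => by positivity
    rw [Finset.sum_const, Nat.card_Icc]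
    simp only [nsmul_eq_mul, Nat.add_sub_cancel]
    push_cast
    linarith
  have a30 : 0 ≤ (0 + 1 + ∑ x ∈ Finset.Icc 1 (c * n), ((b : ℚ) * 1 + b * 1) +
      ∑ m ∈ (ss h c n).erase k, ((mu h n ds m : ℚ) * 1)) := by positivity
  apply mul_le_mul _ (pow_le_pow_left₀ a30 a3 j) (by positivity) (by positivity)
  have hF : (0 : ℚ) < ((c * n).factorial : ℚ) ^ (2 * b) := by positivity
  have a4 : cst b h c n ds * ((h : ℚ) * n + 2) *
      (∏ m ∈ Finset.Icc 1 (c * n), (|-(k : ℚ) + m| ^ b * |-(k : ℚ) + ((h : ℚ) * n - m)| ^ b)) *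
      (∏ m ∈ (ss h c n).erase k, (|-(k : ℚ) + m|⁻¹) ^ mu h n ds m) =
      (h * n + 2) * (((∏ m ∈ Finset.Icc 1 (c * n), (|-(k : ℚ) + m| ^ b * |-(k : ℚ) + ((h : ℚ) * n - m)| ^ b)) /
        ((c * n).factorial : ℚ) ^ (2 * b)) * ((ds.map fun d => (Nat.factorial ((h - 2 * d) * n) : ℚ)).prod *
        ∏ m ∈ (ss h c n).erase k, (|-(k : ℚ) + m|⁻¹) ^ mu h n ds m)) := by
    unfold cst
    field_simp
  rw [a4]
  have a5 : (∏ m ∈ Finset.Icc 1 (c * n), (|-(k : ℚ) + m| ^ b * |-(k : ℚ) + ((h : ℚ) * n - m)| ^ b)) /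
        ((c * n).factorial : ℚ) ^ (2 * b) ≤ 2 ^ (b * (h * n)) := by
    rw [div_le_iff₀ hF, mul_comm (2 ^ (b * (h * n)) : ℚ)]
    exact a1
  have a6 : 0 ≤ (ds.map fun d => (Nat.factorial ((h - 2 * d) * n) : ℚ)).prod *
        ∏ m ∈ (ss h c n).erase k, (|-(k : ℚ) + m|⁻¹) ^ mu h n ds m := by
    apply mul_nonneg
    · apply List.prod_nonneg
      intro x hx
      rw [List.mem_map] at hx
      obtain ⟨d', _, rfl⟩ := hx
      positivity
    · positivity
  calc _ ≤ ((h : ℚ) * n + 2) * (2 ^ (b * (h * n)) * 2 ^ ((ds.map fun d => h - 2 * d).sum * n)) := by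
        apply mul_le_mul_of_nonneg_left _ (by linarith)
        exact mul_le_mul a5 a2 a6 (by positivity)
    _ = _ := by
        rw [← pow_add, ← mul_assoc b h n, ← Nat.add_mul]
        ring

theorem pa_le (b h c n : ℕ) (ds : List ℕ) (hn : 1 ≤ n)
    (hc : ∀ d ∈ ds, c < d) (h2 : ∀ d ∈ ds, 2 * d < h) {k : ℕ} (hk : k ∈ ss h c n) (i : ℕ) :
    |pa (ss h c n) (mu h n ds) (PP b h c n ds) k i| ≤
      2 ^ ((b * h + (ds.map fun d => h - 2 * d).sum) * n) * (h * n + 2) *
        (1 + 2 * b * (c * n) + ∑ m ∈ ss h c n, mu h n ds m : ℚ) ^ ds.length := by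
  have h1 : (1 : ℚ) ≤ 1 + 2 * b * (c * n) + ∑ m ∈ ss h c n, mu h n ds m := by
    have : (0 : ℚ) ≤ 2 * b * (c * n) + ∑ m ∈ ss h c n, (mu h n ds m : ℚ) := by positivity
    push_cast at this ⊢
    linarith
  unfold pa
  split_ifs with hi
  · refine (pfc_le b h c n ds hn hc h2 hk _).trans ?_
    apply mul_le_mul_of_nonneg_left _ (by positivity)
    apply pow_le_pow_right₀ h1
    have := mu_le_length h n ds k
    omega
  · rw [abs_zero]
    positivity

end

end Pool.Agent.TH957.WM
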