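import Pool.Agent.TH957.WM.Form

/-!
# The quantitative criterion, uniform in the weights
-/

open Polynomial Filter Topology Pool.Agent.H337R2 Pool.Agent.W339.ZC

namespace Pool.Agent.TH957.WM

noncomputable section

set_option autoImplicit false

/-- the archimedean bound for the combination, uniform in the weights -/
theorem comb_bound' (b h c : ℕ) (ds : List ℕ)
    (hc : ∀ d ∈ ds, c < d) (h2 : ∀ d ∈ ds, 2 * d < h) (hch : c < h) (h2h : 2 ≤ h) (hr : 3 ≤ ds.length)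
    (hdeg : 2 * b * c ≤ (ds.map fun d => h - 2 * d).sum)
    (S : ℝ) (hS : ∀ τ : ℝ, 0 ≤ τ → f0 b h c ds τ ≤ S) (ε : ℝ) (hε : 0 < ε) :
    ∀ᶠ n : ℕ in atTop, ∀ β, β + 1 ≤ b → ∀ w : ℕ → ℚ, ∀ Wt : ℝ, (∀ δ, δ ≤ β → |(w δ : ℝ)| ≤ Wt) →
      ∀ F, HasSum (fun t => ∑ δ ∈ Finset.range (β + 1), (w δ : ℝ) * tm b h c n ds δ t) F →
      |F| ≤ (b * Wt) * Real.exp (n * (S + ε)) := by
  have h1 : ∀ᶠ n : ℕ in atTop, ∀ δ ∈ Finset.range b, ∀ F, HasSum (tm b h c n ds δ) F →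
      |F| ≤ Real.exp (n * (S + ε)) := by
    rw [Filter.eventually_all_finset]
    intro δ _
    exact real_bound b h c ds hc h2 hch h2h hr S hS δ ε hε
  filter_upwards [h1, eventually_ge_atTop 1] with n hn hn1 β hβ w Wt hW F hF
  have hs : ∀ δ ∈ Finset.range (β + 1), HasSum (tm b h c n ds δ) (∑' t, tm b h c n ds δ t) := by
    intro δ hδ
    rw [Finset.mem_range] at hδ
    exact (hasSum_tm b h c n ds hn1 hc h2 hr hdeg δ (by omega)).summable.hasSum
  have hF2 : HasSum (fun t => ∑ δ ∈ Finset.range (β + 1), (w δ : ℝ) * tm b h c n ds δ t)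
      (∑ δ ∈ Finset.range (β + 1), (w δ : ℝ) * ∑' t, tm b h c n ds δ t) :=
    hasSum_sum fun δ hδ => (hs δ hδ).mul_left _
  have hW0 : 0 ≤ Wt := (abs_nonneg _).trans (hW 0 (Nat.zero_le _))
  rw [hF.unique hF2]
  calc |∑ δ ∈ Finset.range (β + 1), (w δ : ℝ) * ∑' t, tm b h c n ds δ t|
      ≤ ∑ δ ∈ Finset.range (β + 1), |(w δ : ℝ) * ∑' t, tm b h c n ds δ t| := Finset.abs_sum_le_sum_abs _ _
    _ ≤ ∑ δ ∈ Finset.range (β + 1), Wt * Real.exp (n * (S + ε)) := by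
        apply Finset.sum_le_sum
        intro δ hδ
        rw [abs_mul]
        have h3 := hs δ hδ
        rw [Finset.mem_range] at hδ
        exact mul_le_mul (hW δ (by omega)) (hn δ (Finset.mem_range.2 (by omega)) _ h3) (abs_nonneg _) hW0
    _ = ((β + 1 : ℕ) : ℝ) * (Wt * Real.exp (n * (S + ε))) := by
        rw [Finset.sum_const, Finset.card_range, nsmul_eq_mul]
    _ ≤ (b : ℝ) * (Wt * Real.exp (n * (S + ε))) := by
        apply mul_le_mul_of_nonneg_right (by exact_mod_cast hβ) (by positivity)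
    _ = _ := by ring

/-- one step: for a fixed `n = (p+1)/κ` the tuple of integers cannot be too close -/
theorem one_step (b h c D : ℕ) (ds : List ℕ) (H : Params b h c D ds)
    (x : ℕ × ℕ × ℕ) (L : List (ℕ × ℕ × ℕ)) (hV : Valid b h c ds (x :: L))
    (hx1 : x.1 = 1) (hx2 : x.2.1 = h - D - c) (hlast : 0 < ((x :: L).getLast (by simp)).1)
    (β : ℕ) (hβ : β + 1 ≤ b) (w : ℕ → ℤ)
    (n : ℕ) (hn : 2 ≤ n) (hLn : ∀ y ∈ x :: L, y.2.1 ^ 2 ≤ h * n ∧ 0 < y.2.1) (U : ℕ → ℤ)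
    (hne : xc b h c n ds β (fun i => (w i : ℚ)) (fun i => (U i : ℚ)) ≠ 0) (η : ℝ) (hη : 0 ≤ η)
    (hU : ∀ i, Odd i → 3 ≤ i → i ≤ ds.length → |(U i : ℝ) - Zc β (fun i => (w i : ℚ)) i| ≤ η)
    (EF ED ER : ℝ)
    (hF : ∀ F, HasSum (fun t => ∑ δ ∈ Finset.range (β + 1), ((w δ : ℚ) : ℝ) * tm b h c n ds δ t) F → |F| ≤ EF)
    (hD : (Dn b h n ds.length x L : ℝ) ≤ ED)
    (hR : ∑ i ∈ Finset.Icc 1 ds.length, |((rho b h c n ds i : ℚ) : ℝ)| ≤ ER) :
    1 ≤ ED * (EF + η * ER) := by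
  have hch : c < h := by have := H.hcc; omega
  obtain ⟨m, hm⟩ := integral b h c n D ds (by have := H.hb; omega) (by omega) H.hD H.hc H.h2 hch H.hcc x L hV hx1 hx2
    hLn hlast β hβ (fun i => (w i : ℚ)) (fun i => (U i : ℚ)) 1 one_pos (fun i => ⟨U i, by simp⟩) (fun i => ⟨w i, by simp⟩)
  have hDpos := Dn_pos b h n ds.length x L (by omega)
  rw [Nat.cast_one, one_mul] at hm
  have hm0 : m ≠ 0 := by
    rintro rfl
    simp only [Int.cast_zero, mul_eq_zero] at hm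
    rcases hm with h6 | h6
    · have : Dn b h n ds.length x L = 0 := by exact_mod_cast h6
      omega
    · exact hne h6
  have hm1 : (1 : ℝ) ≤ |(m : ℝ)| := by
    have : (1 : ℤ) ≤ |m| := Int.one_le_abs hm0
    exact_mod_cast this
  have hmr : (m : ℝ) = (Dn b h n ds.length x L : ℝ) *
      ((xc b h c n ds β (fun i => (w i : ℚ)) (fun i => (U i : ℚ)) : ℚ) : ℝ) := by
    have : ((m : ℚ) : ℝ) = (((Dn b h n ds.length x L : ℕ) : ℚ) * xc b h c n ds β (fun i => (w i : ℚ)) (fun i => (U i : ℚ)) : ℚ) := by rw [hm]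
    push_cast at this
    exact this
  have hDr : (0 : ℝ) < (Dn b h n ds.length x L : ℝ) := by exact_mod_cast hDpos
  rw [hmr, abs_mul, abs_of_pos hDr] at hm1
  obtain ⟨F, hF1, hF2⟩ := form_diff b h c n ds (by omega) H.hc H.h2 H.hlen H.hdeg β hβ
    (fun i => (w i : ℚ)) (fun i => (U i : ℚ))
  have h1 := hF F hF1
  set xx : ℝ := ((xc b h c n ds β (fun i => (w i : ℚ)) (fun i => (U i : ℚ)) : ℚ) : ℝ) with hxx
  have h2 : |xx - F| ≤ η * ER := by
    rw [hF2]
    calc _ ≤ ∑ i ∈ Finset.Icc 1 ds.length, |((rho b h c n ds i : ℚ) : ℝ) * ((((U i : ℤ) : ℚ) : ℝ) - Zc β (fun i => (w i : ℚ)) i)| :=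
          Finset.abs_sum_le_sum_abs _ _
      _ ≤ ∑ i ∈ Finset.Icc 1 ds.length, |((rho b h c n ds i : ℚ) : ℝ)| * η := by
          apply Finset.sum_le_sum
          intro i hi
          rw [Finset.mem_Icc] at hi
          rw [abs_mul]
          by_cases hodd : Odd i ∧ 3 ≤ i
          · have h5 := hU i hodd.1 hodd.2 hi.2
            rw [Rat.cast_intCast]
            exact mul_le_mul_of_nonneg_left h5 (abs_nonneg _)
          · have h3 : rho b h c n ds i = 0 :=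
              rho_zero b h c n ds (by omega) H.hc H.h2 H.hlen H.hev H.hdeg i hi.1 hodd
            rw [h3]
            simp
      _ = (∑ i ∈ Finset.Icc 1 ds.length, |((rho b h c n ds i : ℚ) : ℝ)|) * η := by rw [Finset.sum_mul]
      _ ≤ ER * η := mul_le_mul_of_nonneg_right hR hη
      _ = η * ER := mul_comm _ _
  have h3 : |xx| ≤ EF + η * ER := by
    calc _ = |F + (xx - F)| := by congr 1; ring
      _ ≤ |F| + |xx - F| := abs_add_le _ _
      _ ≤ _ := add_le_add h1 h2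
  have h4 : 0 ≤ |xx| := abs_nonneg _
  calc (1 : ℝ) ≤ (Dn b h n ds.length x L : ℝ) * |xx| := hm1
    _ ≤ ED * (EF + η * ER) := mul_le_mul hD h3 h4 (by linarith)

lemma half_exp : (1 : ℝ) / 2 = Real.exp (-Real.log 2) := by
  rw [Real.exp_neg, Real.exp_log (by norm_num)]; norm_num

lemma term1 {Γ S T n M ε : ℝ} (hneg : S + Γ ≤ T) (hM : 0 < M) (hn0 : 0 ≤ n)
    (hn : Real.log M + Real.log 2 ≤ n * (-T - 2 * ε)) :
    Real.exp ((Γ + ε) * n) * (M * Real.exp (n * (S + ε))) ≤ 1 / 2 := by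
  have e1 : Real.exp ((Γ + ε) * n) * (M * Real.exp (n * (S + ε))) =
      Real.exp ((Γ + ε) * n + (Real.log M + n * (S + ε))) := by
    rw [Real.exp_add, Real.exp_add, Real.exp_log hM]
  rw [e1, half_exp, Real.exp_le_exp]
  have h7 : n * (S + Γ) ≤ n * T := mul_le_mul_of_nonneg_left hneg hn0
  have e3 : (Γ + ε) * n + (Real.log M + n * (S + ε)) = n * (S + Γ) + 2 * (n * ε) + Real.log M := by ring
  have e4 : n * (-T - 2 * ε) = - (n * T) - 2 * (n * ε) := by ring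
  rw [e3]
  linarith

lemma term2 {Γ B n K lH ε : ℝ} (hn : n * (Γ + B + 2 * ε) + Real.log 2 < K * lH) :
    Real.exp ((Γ + ε) * n) * (Real.exp (-K * lH) * Real.exp (n * (B + ε))) < 1 / 2 := by
  rw [← Real.exp_add, ← Real.exp_add, half_exp, Real.exp_lt_exp]
  have e4 : (Γ + ε) * n + (-K * lH + n * (B + ε)) = n * (Γ + B + 2 * ε) - K * lH := by ring
  rw [e4]
  linarith

/-- the choice of the parameters -/
lemma choose_par {τ G f κ K : ℝ} (hτ : 0 < τ) (hκ : 0 < κ)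
    (hK : (1 / τ + f / κ) * G < K) :
    ∃ a lam ε : ℝ, 0 < a ∧ 1 + (1 / a) * f < lam ∧ 0 < ε ∧ 1 < (a / κ) * (τ - 2 * ε) ∧
      (lam * a / κ) * (G + 2 * ε) < K := by
  -- by continuity
  have h1 : ∀ᶠ ε in 𝓝[>] (0 : ℝ), ((κ * (1 / τ + ε) * (1 + (1 / (κ * (1 / τ + ε))) * f + ε)) / κ) * (G + 2 * (ε * τ ^ 2 / 8)) < K := by
    have hc : ContinuousAt (fun ε : ℝ => ((κ * (1 / τ + ε) * (1 + (1 / (κ * (1 / τ + ε))) * f + ε)) / κ) * (G + 2 * (ε * τ ^ 2 / 8))) 0 := by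
      have h2 : κ * (1 / τ + 0) ≠ 0 := by
        rw [add_zero]; positivity
      fun_prop (disch := assumption)
    have h0 : ((κ * (1 / τ + 0) * (1 + (1 / (κ * (1 / τ + 0))) * f + 0)) / κ) * (G + 2 * (0 * τ ^ 2 / 8)) < K := by
      have : ((κ * (1 / τ + 0) * (1 + (1 / (κ * (1 / τ + 0))) * f + 0)) / κ) * (G + 2 * (0 * τ ^ 2 / 8)) = (1 / τ + f / κ) * G := by
        field_simp
        ring
      rw [this]; exact hK
    exact (hc.eventually_lt_const h0).filter_mono nhdsWithin_le_nhds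
  have h2 : ∀ᶠ ε in 𝓝[>] (0 : ℝ), ε < 1 / τ := by
    have : ∀ᶠ ε in 𝓝 (0 : ℝ), ε < 1 / τ := eventually_lt_nhds (by positivity)
    exact this.filter_mono nhdsWithin_le_nhds
  obtain ⟨ε, h3, h4, h5⟩ := (h1.and (h2.and self_mem_nhdsWithin)).exists
  have h5' : 0 < ε := h5
  refine ⟨κ * (1 / τ + ε), 1 + (1 / (κ * (1 / τ + ε))) * f + ε, ε * τ ^ 2 / 8, by positivity, by linarith, by positivity, ?_, ?_⟩
  · have e1 : κ * (1 / τ + ε) / κ = 1 / τ + ε := by field_simp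
    rw [e1]
    have e2 : (1 / τ + ε) * (τ - 2 * (ε * τ ^ 2 / 8)) = 1 + ε * τ * (3 / 4) - (ε * τ) ^ 2 / 4 := by
      field_simp
      ring
    rw [e2]
    have e3 : ε * τ < 1 := by
      rw [lt_div_iff₀ hτ] at h4
      exact h4
    have e4 : 0 < ε * τ := by positivity
    nlinarith
  · have e1 : (1 + 1 / (κ * (1 / τ + ε)) * f + ε) * (κ * (1 / τ + ε)) / κ = κ * (1 / τ + ε) * (1 + 1 / (κ * (1 / τ + ε)) * f + ε) / κ := by
      ring
    rw [e1]
    exact h3

lemma Zc_top {β b : ℕ} (hβ : β + 1 ≤ b) (w : ℕ → ℚ) (hz : ∀ δ, β < δ → δ < b → w δ = 0) (i : ℕ) :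
    Zc (b - 1) w i = Zc β w i := by
  unfold Zc
  symm
  apply Finset.sum_subset
  · intro x hx
    rw [Finset.mem_range] at *
    omega
  · intro x hx hx2
    rw [Finset.mem_range] at *
    rw [hz x (by omega) (by omega)]
    simp

set_option maxHeartbeats 1000000 in
/-- the quantitative criterion, uniform in the integer weights -/
theorem qcriterion (b h c D : ℕ) (ds : List ℕ) (H : Params b h c D ds)
    (x : ℕ × ℕ × ℕ) (L : List (ℕ × ℕ × ℕ)) (hV : Valid b h c ds (x :: L)) (hI : Inc (x :: L))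
    (hx1 : x.1 = 1) (hx2 : x.2.1 = h - D - c) (hpos : ∀ y ∈ x :: L, 0 < y.2.1)
    (hlast : 0 < ((x :: L).getLast (by simp)).1) (S : ℝ)
    (hS : ∀ τ : ℝ, 0 ≤ τ → f0 b h c ds τ ≤ S)
    (τ G : ℝ) (hτ : 0 < τ) (hG0 : 0 ≤ G)
    (hneg : S + (cost (x :: L) + ((b - 1 + ds.length : ℕ) : ℝ) *
      ((((x :: L).getLast (by simp)).2.1 : ℝ) / ((x :: L).getLast (by simp)).1)) ≤ -τ)
    (hG : cost (x :: L) + ((b - 1 + ds.length : ℕ) : ℝ) *
      ((((x :: L).getLast (by simp)).2.1 : ℝ) / ((x :: L).getLast (by simp)).1) +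
      (b * h + (ds.map fun d => h - 2 * d).sum : ℕ) * Real.log 2 ≤ G)
    (K : ℝ) (hK : (1 / τ + ((h - D - c).totient : ℝ) / ((h - D - c : ℕ) : ℝ)) * G < K) :
    ∀ᶠ q : ℕ in atTop, ∀ w : ℕ → ℤ, (∀ δ, δ < b → |w δ| ≤ q) → (∃ δ, δ < b ∧ w δ ≠ 0) → ∀ P : ℕ → ℤ,
      ∃ i, Odd i ∧ 3 ≤ i ∧ i ≤ ds.length ∧
      (q : ℝ) ^ (-K) ≤ |Zc (b - 1) (fun δ => (w δ : ℚ)) i - P i| := by
  set Γ : ℝ := cost (x :: L) + ((b - 1 + ds.length : ℕ) : ℝ) *
      ((((x :: L).getLast (by simp)).2.1 : ℝ) / ((x :: L).getLast (by simp)).1) with hΓ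
  set B : ℝ := (b * h + (ds.map fun d => h - 2 * d).sum : ℕ) * Real.log 2 with hB
  have hκ : 2 ≤ h - D - c := by
    have := H.hcc
    have := H.hDD
    have := H.hc D H.hDm
    omega
  set κ := h - D - c with hκdef
  have hκr : (2 : ℝ) ≤ κ := by exact_mod_cast hκ
  have hκ0 : (0 : ℝ) < κ := by linarith
  have hch : c < h := by have := H.hcc; omega
  obtain ⟨a, lam, ε, ha, hlam, hε, hα, hKK⟩ := choose_par (τ := τ) (G := G) (f := (κ.totient : ℝ)) (κ := κ) (K := K)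
    hτ hκ0 hK
  have ev1 := comb_bound' b h c ds H.hc H.h2 hch (by have := H.hcc; have := H.hc D H.hDm; omega) H.hlen H.hdeg S hS
    ε hε
  have ev2 := log_Dn_le b h ds.length x L hI hpos hlast ε hε
  have ev3 := rho_bound b h c ds H.hc H.h2 ε hε
  have ev4 : ∀ᶠ n : ℕ in atTop, ∀ y ∈ x :: L, y.2.1 ^ 2 ≤ h * n := by
    obtain ⟨B, hB⟩ : ∃ B : ℕ, ∀ y ∈ x :: L, y.2.1 ≤ B := by
      refine ⟨((x :: L).map fun y => y.2.1).sum, fun y hy => ?_⟩
      exact List.single_le_sum (fun _ _ => Nat.zero_le _) _ (List.mem_map_of_mem hy)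
    filter_upwards [eventually_ge_atTop (B ^ 2)] with n hn y hy
    have h1 := hB y hy
    have h2 : y.2.1 ^ 2 ≤ B ^ 2 := Nat.pow_le_pow_left h1 2
    have h3 : 1 ≤ h := by have := H.hcc; omega
    nlinarith
  obtain ⟨N, hN⟩ := eventually_atTop.1 (ev1.and (ev2.and (ev3.and ev4)))
  obtain ⟨X0, hX0⟩ := eventually_atTop.1 (exists_prime κ (by omega) lam (1 / a) (by positivity) hlam)
  have hb0 : (0 : ℝ) < b := by
    have := H.hb
    exact_mod_cast (by omega : 0 < b)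
  have hτε : 0 < τ - 2 * ε := by
    by_contra hle
    push Not at hle
    have : a / κ * (τ - 2 * ε) ≤ 0 := mul_nonpos_of_nonneg_of_nonpos (by positivity) hle
    linarith
  have hlam0 : 0 < lam := by
    have : 0 ≤ 1 / a * (κ.totient : ℝ) := by positivity
    linarith
  set c1 : ℝ := a / κ * (τ - 2 * ε) - 1 with hc1
  have hc10 : 0 < c1 := by linarith
  set c2 : ℝ := K - lam * a / κ * (G + 2 * ε) with hc2
  have hc20 : 0 < c2 := by linarith
  set M : ℕ := X0 + κ * (N + 2) + h ^ 2 + ds.length + b with hM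
  have hlogq : Tendsto (fun q : ℕ => Real.log q) atTop atTop :=
    Real.tendsto_log_atTop.comp tendsto_natCast_atTop_atTop
  filter_upwards [eventually_ge_atTop 2, hlogq.eventually_ge_atTop ((Real.log b + Real.log 2) / c1),
    hlogq.eventually_gt_atTop (((lam + 1) / κ * (G + 2 * ε) + Real.log 2) / c2),
    hlogq.eventually_ge_atTop (M / a)] with q hq2 hl1 hl2 hl3 w hwb hwne P
  by_contra hcon
  push Not at hcon
  have hqr : (2 : ℝ) ≤ q := by exact_mod_cast hq2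
  have hq0 : (0 : ℝ) < q := by linarith
  set lq : ℝ := Real.log q with hlq
  have hlq0 : 0 < lq := Real.log_pos (by linarith)
  rw [div_le_iff₀ hc10] at hl1
  rw [div_lt_iff₀ hc20] at hl2
  rw [div_le_iff₀ ha] at hl3
  -- the top index
  obtain ⟨β, hβ, hwβ, hwz⟩ : ∃ β, β + 1 ≤ b ∧ w β ≠ 0 ∧ ∀ δ, β < δ → δ < b → w δ = 0 := by
    classical
    obtain ⟨δ0, hδ0, hw0⟩ := hwne
    refine ⟨Nat.findGreatest (fun l => w l ≠ 0) (b - 1), ?_, ?_, fun δ hδ1 hδ2 => ?_⟩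
    · have := Nat.findGreatest_le (P := fun l => w l ≠ 0) (b - 1)
      omega
    · exact Nat.findGreatest_spec (P := fun l => w l ≠ 0) (by omega : δ0 ≤ b - 1) hw0
    · by_contra hne
      exact Nat.findGreatest_is_greatest hδ1 (by omega) hne
  have hZ : ∀ i, Zc (b - 1) (fun δ => (w δ : ℚ)) i = Zc β (fun δ => (w δ : ℚ)) i := fun i =>
    Zc_top hβ _ (fun δ h1 h2 => by rw [hwz δ h1 h2]; simp) i
  set Q : ℕ := (w β).natAbs with hQ
  have hQ0 : 0 < Q := Int.natAbs_pos.2 hwβ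
  have hQq : Q ≤ q := by
    have h1 := hwb β (by omega)
    rw [Int.abs_eq_natAbs] at h1
    exact_mod_cast h1
  have hlogQ : Real.log Q ≤ lq := Real.log_le_log (by exact_mod_cast hQ0) (by exact_mod_cast hQq)
  -- the prime
  set X : ℕ := ⌈a * lq⌉₊ with hX
  have hXge : a * lq ≤ X := Nat.le_ceil _
  have hXlt : (X : ℝ) < a * lq + 1 := Nat.ceil_lt_add_one (by positivity)
  have hXM : M ≤ X := by
    have : (M : ℝ) ≤ X := by linarith
    exact_mod_cast this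
  obtain ⟨p, hp, hpmod, hXp, hpX, hpQ⟩ := hX0 X (by omega) Q hQ0 (by
    refine hlogQ.trans ?_
    rw [div_mul_eq_mul_div, one_mul, le_div_iff₀ ha]
    linarith)
  have : NeZero κ := ⟨by omega⟩
  have hdvd : κ ∣ p + 1 := by
    rw [← CharP.cast_eq_zero_iff (ZMod κ) κ (p + 1)]
    push_cast
    rw [hpmod]; ring
  obtain ⟨n, hn⟩ := hdvd
  have hpn : p + 1 = κ * n := hn
  have hNn : N + 2 ≤ n := by
    by_contra h1
    have h2 : κ * n ≤ κ * (N + 2) := Nat.mul_le_mul_left κ (by omega)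
    omega
  have hnp : n ≤ p := by
    have h2 : 2 * n ≤ κ * n := Nat.mul_le_mul_right n hκ
    omega
  have hp2 : h * n < p ^ 2 := by
    have h1 : h ^ 2 < p := by omega
    have h2 : h ≤ h ^ 2 := by
      have : 1 ≤ h := by have := H.hcc; omega
      nlinarith
    calc h * n ≤ h * p := Nat.mul_le_mul_left h hnp
      _ < p * p := by
        apply Nat.mul_lt_mul_of_pos_right _ hp.pos
        omega
      _ = p ^ 2 := by ring
  obtain ⟨h1, h2, h3, h4⟩ := hN n (by omega)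
  have hDpos := Dn_pos b h n ds.length x L (by omega)
  have hDr : (0 : ℝ) < (Dn b h n ds.length x L : ℝ) := by exact_mod_cast hDpos
  have hη : (q : ℝ) ^ (-K) = Real.exp (-K * lq) := by
    rw [Real.rpow_def_of_pos hq0, mul_comm]
  have : Fact p.Prime := ⟨hp⟩
  have hwn' : padicNorm p ((w β : ℚ)) = 1 := by
    rw [padicNorm.int_eq_one_iff]
    intro h5
    apply hpQ
    rwa [hQ, ← Int.natCast_dvd_natCast, Int.dvd_natAbs]
  have hne := xc_ne_zero (p := p) b h c n D ds H.hb (by omega) H.hDm H.hD H.hc H.h2 H.hcc H.hDD hpn hp2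
    β hβ (by omega) (fun i => (w i : ℚ)) (fun i => (P i : ℚ)) hwn' (fun i => padicNorm.of_int _)
    (fun i => padicNorm.of_int _)
  have key := one_step b h c D ds H x L hV hx1 hx2 hlast β hβ w n (by omega)
    (fun y hy => ⟨h4 y hy, hpos y hy⟩) P hne ((q : ℝ) ^ (-K)) (by positivity)
    (fun i hi1 hi2 hi3 => by
      have h5 := (hcon i hi1 hi2 hi3).le
      rw [hZ, abs_sub_comm] at h5
      exact h5)
    ((b * q) * Real.exp (n * (S + ε))) (Real.exp ((Γ + ε) * n)) (Real.exp (n * (B + ε)))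
    (fun F hF => h1 β hβ (fun δ => (w δ : ℚ)) q (fun δ hδ => by
      have h5 := hwb δ (by omega)
      have h6 : ((|w δ| : ℤ) : ℝ) ≤ ((q : ℤ) : ℝ) := by exact_mod_cast h5
      push_cast at h6 ⊢
      exact h6) F hF) (by rw [← Real.log_le_iff_le_exp hDr]; exact h2) h3
  -- sizes of `n`
  have hn0 : (0 : ℝ) < n := by exact_mod_cast (by omega : 0 < n)
  have hnlow : a / κ * lq ≤ n := by
    have h5 : (X : ℝ) ≤ κ * n := by
      have : X ≤ κ * n := by omega
      exact_mod_cast this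
    rw [div_mul_eq_mul_div, div_le_iff₀ hκ0]
    linarith
  have hnup : (n : ℝ) ≤ lam * a / κ * lq + (lam + 1) / κ := by
    have h5 : (κ : ℝ) * n ≤ lam * X + 1 := by
      have : ((p + 1 : ℕ) : ℝ) = ((κ * n : ℕ) : ℝ) := by rw [hpn]
      push_cast at this
      linarith
    have h6 : lam * (X : ℝ) ≤ lam * (a * lq + 1) := mul_le_mul_of_nonneg_left hXlt.le hlam0.le
    have h7 : lam * a / κ * lq + (lam + 1) / κ = (lam * (a * lq + 1) + 1) / κ := by
      field_simp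
      ring
    rw [h7, le_div_iff₀ hκ0]
    linarith
  have t1 : Real.exp ((Γ + ε) * n) * ((b * q) * Real.exp (n * (S + ε))) ≤ 1 / 2 := by
    apply term1 hneg (by positivity) hn0.le
    rw [Real.log_mul hb0.ne' hq0.ne', neg_neg]
    have h5 : a / κ * lq * (τ - 2 * ε) ≤ n * (τ - 2 * ε) := mul_le_mul_of_nonneg_right hnlow hτε.le
    have h6 : a / κ * lq * (τ - 2 * ε) = lq * c1 + lq := by rw [hc1]; ring
    linarith
  have t2 : Real.exp ((Γ + ε) * n) * (Real.exp (-K * lq) * Real.exp (n * (B + ε))) < 1 / 2 := by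
    apply term2
    have hGε : 0 ≤ G + 2 * ε := by linarith
    have h5 : n * (Γ + B + 2 * ε) ≤ n * (G + 2 * ε) := by
      apply mul_le_mul_of_nonneg_left _ hn0.le
      linarith
    have h6 : n * (G + 2 * ε) ≤ (lam * a / κ * lq + (lam + 1) / κ) * (G + 2 * ε) :=
      mul_le_mul_of_nonneg_right hnup hGε
    have h7 : (lam * a / κ * lq + (lam + 1) / κ) * (G + 2 * ε) = K * lq - lq * c2 + (lam + 1) / κ * (G + 2 * ε) := by
      rw [hc2]; ring
    linarith
  rw [hη, mul_add] at key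
  linarith

end

end Pool.Agent.TH957.WM
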