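import Pool.Agent.W339.ZC.NonVan

/-!
# Non-vanishing via a special prime: the case of rational points with a moderate power of `p` in the denominator
-/

open Polynomial Pool.Agent.H337R2 Pool.Agent.W339.ZC

namespace Pool.Agent.TH957.WM

noncomputable section

set_option linter.unusedSectionVars false

variable {p : ℕ} [hp : Fact p.Prime]

theorem xc_ne_zero' (b h c n D : ℕ) (ds : List ℕ) (hb : 2 ≤ b) (hn : 2 ≤ n) (hDm : D ∈ ds) (hD : ∀ d ∈ ds, D ≤ d)
    (hc : ∀ d ∈ ds, c < d) (h2 : ∀ d ∈ ds, 2 * d < h) (hcc : 2 * c + D < h) (hDD : 2 * D + c < h)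
    (hpn : p + 1 = (h - D - c) * n) (hp2 : h * n < p ^ 2) (β : ℕ) (hβ : β + 1 ≤ b)
    (hpb : ds.length + b ≤ p)
    (w U : ℕ → ℚ) (hwβ : padicNorm p (w β) = 1) (hw : ∀ δ, padicNorm p (w δ) ≤ 1)
    (hU : ∀ i, padicNorm p (U i) ≤ (p : ℚ) ^ (mu h n ds ((h - D) * n) + β - 1)) : xc b h c n ds β w U ≠ 0 := by
  have hp0 : (p : ℚ) ≠ 0 := p_pos'.ne'
  have hp1 : (1 : ℚ) ≤ p := p_one'
  have hp1' : (1 : ℚ) < p := by exact_mod_cast hp.out.one_lt
  have hcD := hc D hDm
  have h2D := h2 D hDm
  have hκn : h * n = (h - D - c) * n + D * n + c * n := by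
    have : h = (h - D - c) + D + c := by omega
    conv_lhs => rw [this]
    ring
  have hκn2 : (h - D) * n = (h - D - c) * n + c * n := by
    have : h - D = (h - D - c) + c := by omega
    conv_lhs => rw [this]
    ring
  have f3 : c * n + n ≤ (h - D - c) * n := by
    have : (c + 1) * n ≤ (h - D - c) * n := Nat.mul_le_mul_right n (by omega)
    linarith
  have f4 : D * n + n ≤ (h - D - c) * n := by
    have : (D + 1) * n ≤ (h - D - c) * n := Nat.mul_le_mul_right n (by omega)
    linarith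
  have f5 : c * n + n ≤ D * n := by
    have : (c + 1) * n ≤ D * n := Nat.mul_le_mul_right n (by omega)
    linarith
  have hbr : ∀ d ∈ ds, (h - 2 * d) * n < p := by
    intro d hd
    have h8 := hD d hd
    have h9 : (h - 2 * d + 1) * n ≤ (h - D - c) * n := Nat.mul_le_mul_right n (by omega)
    have h10 : (h - 2 * d + 1) * n = (h - 2 * d) * n + n := by ring
    omega
  have hcst : padicNorm p (cst b h c n ds) = 1 := by
    rw [norm_cst b h c n ds hp2 h2 (by omega)]
    have h5 : c * n / p = 0 := Nat.div_eq_of_lt (by omega)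
    have h6 : (ds.map fun d => (h - 2 * d) * n / p).sum = 0 := by
      rw [List.sum_eq_zero_iff]
      intro x hx
      rw [List.mem_map] at hx
      obtain ⟨d, hd, rfl⟩ := hx
      exact Nat.div_eq_of_lt (hbr d hd)
    rw [h5, h6]; simp
  have hpa : ∀ k ∈ ss h c n, ∀ i, 1 ≤ i →
      padicNorm p (pa (ss h c n) (mu h n ds) (PP b h c n ds) k i) ≤ 1 := by
    intro k hk i hi
    by_cases hm : mu h n ds k = 0
    · rw [pa_zero_of_mu hi hm]; simp
    · rw [← hcst]
      apply pa_bound_int b h c n ds hk i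
      intro m _ hmk hmm
      exact hno_of_lt h2 hbr hm hmm hmk
  have hlead := norm_lead (p := p) b h c n D ds hn hDm hD hc h2 hcc hDD hpn hp2
  set k0 := (h - D) * n with hk0
  set μ1 := mu h n ds k0 with hμ1
  have hk0mem : k0 ∈ ss h c n := by
    rw [ss, Finset.mem_Icc]
    omega
  have hμpos : 1 ≤ μ1 := by
    rw [hμ1]
    unfold mu
    have : 0 < List.countP (fun d => d * n ≤ k0 ∧ k0 + d * n ≤ h * n) ds := by
      rw [List.countP_pos_iff]
      refine ⟨D, hDm, ?_⟩
      simp only [decide_eq_true_eq]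
      constructor <;> omega
    omega
  have hμle : μ1 ≤ ds.length := mu_le_length h n ds k0
  -- the inner sums
  obtain ⟨V, hV⟩ : ∃ V : ℕ → ℕ → ℚ, ∀ i k, V i k = U i - ∑ δ ∈ Finset.range (β + 1), (w δ * Cf δ i) * hs (i + δ) (k - c * n - 1) :=
    ⟨_, fun _ _ => rfl⟩
  set W : ℚ := (p : ℚ) ^ (μ1 + β - 1) with hW
  have hW1 : 1 ≤ W := one_le_pow₀ hp1
  have hsmall : ∀ i k, k - c * n - 1 < p → padicNorm p (V i k) ≤ W := by
    intro i k hk
    rw [hV]
    refine padicNorm.sub.trans (max_le (hU i) ?_)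
    refine le_trans ?_ hW1
    apply padicNorm.sum_le' _ zero_le_one
    intro δ _
    rw [padicNorm.mul, padicNorm.mul]
    have a1 := hw δ
    have a2 := norm_Cf (p := p) δ i
    have a3 := hs_norm_small (p := p) (i + δ) (k - c * n - 1) hk
    exact mul3_le a1 a2 a3 (padicNorm.nonneg _) (padicNorm.nonneg _) (padicNorm.nonneg _)
  have hk0p : k0 - c * n - 1 = p := by omega
  have hmed : ∀ i, i < μ1 → padicNorm p (V i k0) ≤ W := by
    intro i him
    rw [hV, hk0p]
    refine padicNorm.sub.trans (max_le (hU i) ?_)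
    apply padicNorm.sum_le' _ (by positivity)
    intro δ hδ
    rw [Finset.mem_range] at hδ
    rw [padicNorm.mul, padicNorm.mul]
    have a1 := hw δ
    have a2 := norm_Cf (p := p) δ i
    have a3 : padicNorm p (hs (i + δ) p) ≤ W := by
      exact (hs_norm_med (p := p) (i + δ) p p_lt_sq).trans (pow_le_pow_right₀ hp1 (by omega))
    exact mul3_le a1 a2 a3 (padicNorm.nonneg _) (padicNorm.nonneg _) (padicNorm.nonneg _)
  set T : ℕ → ℕ → ℚ := fun i k => pa (ss h c n) (mu h n ds) (PP b h c n ds) k i * V i k with hT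
  have hTle : ∀ i k, 1 ≤ i → k ∈ ss h c n → (k ≠ k0 ∨ i ≠ μ1) → padicNorm p (T i k) ≤ W := by
    intro i k hi hk hik
    have hkk : k ≠ k0 → mu h n ds k ≠ 0 → k < k0 := by
      intro h1 h3
      obtain ⟨d, hd, hd1, hd2⟩ := mu_ne_zero h3
      have h4 : D * n ≤ d * n := Nat.mul_le_mul_right n (hD d hd)
      omega
    rw [hT]
    simp only
    rw [padicNorm.mul]
    by_cases hm : mu h n ds k = 0
    · rw [pa_zero_of_mu hi hm, padicNorm.zero, zero_mul]; linarith
    have h3 : padicNorm p (V i k) ≤ W ∨ pa (ss h c n) (mu h n ds) (PP b h c n ds) k i = 0 := by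
      by_cases hkk0 : k = k0
      · subst hkk0
        have him : i ≠ μ1 := by
          rcases hik with h4 | h4
          · exact absurd rfl h4
          · exact h4
        by_cases hi2 : i ≤ μ1
        · left
          exact hmed i (by omega)
        · right
          unfold pa
          rw [if_neg (by omega)]
      · left
        have h4 := hkk hkk0 hm
        exact hsmall i k (by omega)
    rcases h3 with h3 | h3
    · have h5 := hpa k hk i hi
      calc _ ≤ 1 * W := mul_le_mul h5 h3 (padicNorm.nonneg _) zero_le_one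
        _ = W := by ring
    · rw [h3, padicNorm.zero, zero_mul]; linarith
  have hTeq : padicNorm p (T μ1 k0) = (p : ℚ) ^ (μ1 + β) := by
    rw [hT]
    simp only
    rw [padicNorm.mul, hlead, one_mul, hV, hk0p]
    have e1 : padicNorm p (Cf β μ1) = 1 := by
      unfold Cf
      rw [padicNorm.mul]
      have e2 : padicNorm p ((-1 : ℚ) ^ β) = 1 := by
        rw [padicNorm_pow', padicNorm.neg, padicNorm.one, one_pow]
      rw [e2, one_mul, padicNorm.nat_eq_one_iff]
      intro hdvd
      have h4 : Nat.choose (μ1 - 1 + β) (μ1 - 1) ∣ Nat.factorial (μ1 - 1 + β) := by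
        have h5 := Nat.choose_mul_factorial_mul_factorial (n := μ1 - 1 + β) (k := μ1 - 1) (by omega)
        rw [← h5, mul_assoc]
        exact Dvd.intro _ rfl
      have h5 := (hp.out.dvd_factorial).1 (hdvd.trans h4)
      omega
    obtain ⟨p', hp'⟩ : ∃ p', p = p' + 1 := ⟨p - 1, by have := hp.out.pos; omega⟩
    have hsplit : ∀ e, hs e p = hs e p' + 1 / (p : ℚ) ^ e := by
      intro e
      have : hs e p = hs e (p' + 1) := by rw [hp']
      rw [this]
      unfold hs
      rw [Finset.sum_range_succ]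
      congr 3
      rw [hp']; push_cast; ring
    have e3 : padicNorm p (w β * Cf β μ1 * (1 / (p : ℚ) ^ (μ1 + β))) = (p : ℚ) ^ (μ1 + β) := by
      rw [padicNorm.mul, padicNorm.mul, hwβ, e1, padicNorm.div, padicNorm.one, padicNorm_pow', padicNorm.padicNorm_p_of_prime]
      rw [inv_pow, one_div, inv_inv]
      ring
    have hβmem : β ∈ Finset.range (β + 1) := by rw [Finset.mem_range]; omega
    rw [← Finset.add_sum_erase _ _ hβmem]
    have e5 : U μ1 - (w β * Cf β μ1 * hs (μ1 + β) p + ∑ x ∈ (Finset.range (β + 1)).erase β, w x * Cf x μ1 * hs (μ1 + x) p) =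
        (U μ1 - w β * Cf β μ1 * hs (μ1 + β) p' - ∑ x ∈ (Finset.range (β + 1)).erase β, w x * Cf x μ1 * hs (μ1 + x) p) +
          (-(w β * Cf β μ1 * (1 / (p : ℚ) ^ (μ1 + β)))) := by
      rw [hsplit (μ1 + β)]; ring
    have e4 : padicNorm p (U μ1 - w β * Cf β μ1 * hs (μ1 + β) p' -
        ∑ x ∈ (Finset.range (β + 1)).erase β, w x * Cf x μ1 * hs (μ1 + x) p) ≤ W := by
      refine padicNorm.sub.trans (max_le (padicNorm.sub.trans (max_le (hU _) ?_)) ?_)
      · rw [padicNorm.mul, padicNorm.mul, hwβ, e1, one_mul, one_mul]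
        exact (hs_norm_small (p := p) (μ1 + β) p' (by omega)).trans hW1
      · apply padicNorm.sum_le' _ (by linarith)
        intro δ hδ
        rw [Finset.mem_erase, Finset.mem_range] at hδ
        rw [padicNorm.mul, padicNorm.mul]
        have a1 := hw δ
        have a2 := norm_Cf (p := p) δ μ1
        have a3 : padicNorm p (hs (μ1 + δ) p) ≤ W := by
          exact (hs_norm_med (p := p) (μ1 + δ) p p_lt_sq).trans (pow_le_pow_right₀ hp1 (by omega))
        exact mul3_le a1 a2 a3 (padicNorm.nonneg _) (padicNorm.nonneg _) (padicNorm.nonneg _)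
    have hlt : W < (p : ℚ) ^ (μ1 + β) := by
      rw [hW]
      apply pow_lt_pow_right₀ hp1'
      omega
    rw [e5, padicNorm.add_eq_max_of_ne]
    · rw [padicNorm.neg, e3]
      exact max_eq_right (by linarith)
    · rw [padicNorm.neg, e3]
      intro h; rw [h] at e4; linarith
  have hWlt : W < (p : ℚ) ^ (μ1 + β) := by
    rw [hW]
    apply pow_lt_pow_right₀ hp1'
    omega
  -- isolate the leading term
  have hμmem : μ1 ∈ Finset.Icc 1 ds.length := by
    rw [Finset.mem_Icc]; omega
  have hx : xc b h c n ds β w U = T μ1 k0 + (∑ k ∈ (ss h c n).erase k0, T μ1 k +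
      ∑ i ∈ (Finset.Icc 1 ds.length).erase μ1, ∑ k ∈ ss h c n, T i k) := by
    have hx1 : xc b h c n ds β w U = ∑ i ∈ Finset.Icc 1 ds.length, ∑ k ∈ ss h c n, T i k := by
      rw [xc_eq]
      simp only [hT, hV]
    rw [hx1, ← Finset.add_sum_erase _ _ hμmem, ← Finset.add_sum_erase _ _ hk0mem, add_assoc]
  have hrest : padicNorm p (∑ k ∈ (ss h c n).erase k0, T μ1 k +
      ∑ i ∈ (Finset.Icc 1 ds.length).erase μ1, ∑ k ∈ ss h c n, T i k) ≤ W := by
    have hW0 : 0 ≤ W := by linarith
    refine padicNorm.nonarchimedean.trans (max_le ?_ ?_)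
    · apply padicNorm.sum_le' _ hW0
      intro k hk
      rw [Finset.mem_erase] at hk
      exact hTle μ1 k hμpos hk.2 (Or.inl hk.1)
    · apply padicNorm.sum_le' _ hW0
      intro i hi
      rw [Finset.mem_erase, Finset.mem_Icc] at hi
      apply padicNorm.sum_le' _ hW0
      intro k hk
      exact hTle i k hi.2.1 hk (Or.inr hi.1)
  intro hx0
  rw [hx0] at hx
  have h7 : T μ1 k0 = -(∑ k ∈ (ss h c n).erase k0, T μ1 k +
      ∑ i ∈ (Finset.Icc 1 ds.length).erase μ1, ∑ k ∈ ss h c n, T i k) := by linarith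
  have h8 := hTeq
  rw [h7, padicNorm.neg] at h8
  rw [h8] at hrest
  linarith

end

end Pool.Agent.TH957.WM
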