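import Pool.Agent.TH957.WM.Crit
import Pool.Agent.TH957.WM.NonVan

/-!
# The quantitative criterion for fixed weights
-/

open Polynomial Filter Topology Pool.Agent.H337R2 Pool.Agent.W339.ZC

namespace Pool.Agent.TH957.WM

noncomputable section

set_option autoImplicit false

/-- the product of the primes `p` with `p ^ E ∣ q` -/
def rad (E q : ℕ) : ℕ := ∏ p ∈ q.primeFactors.filter (fun p => p ^ E ∣ q), p

lemma rad_pos (E q : ℕ) : 0 < rad E q := by
  unfold rad
  apply Finset.prod_pos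
  intro p hp
  rw [Finset.mem_filter] at hp
  exact (Nat.prime_of_mem_primeFactors hp.1).pos

lemma rad_pow_dvd (E q : ℕ) : rad E q ^ E ∣ q := by
  unfold rad
  rw [← Finset.prod_pow]
  apply Finset.prod_dvd_of_isRelPrime
  · intro a ha b hb hab
    rw [Finset.mem_coe, Finset.mem_filter] at ha hb
    change IsRelPrime (a ^ E) (b ^ E)
    rw [← Nat.coprime_iff_isRelPrime]
    apply Nat.Coprime.pow
    exact (Nat.coprime_primes (Nat.prime_of_mem_primeFactors ha.1) (Nat.prime_of_mem_primeFactors hb.1)).2 hab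
  · intro p hp
    rw [Finset.mem_filter] at hp
    exact hp.2

lemma rad_log {E q : ℕ} (hE : 1 ≤ E) (hq : 0 < q) : Real.log (rad E q) ≤ Real.log q / E := by
  have hE0 : (0 : ℝ) < E := by exact_mod_cast hE
  rw [le_div_iff₀ hE0, mul_comm, ← Real.log_pow]
  apply Real.log_le_log
  · have := rad_pos E q
    positivity
  · exact_mod_cast Nat.le_of_dvd hq (rad_pow_dvd E q)

lemma not_pow_dvd {E q p : ℕ} (hE : 1 ≤ E) (hq : 0 < q) (hp : p.Prime) (h : ¬ p ∣ rad E q) : ¬ p ^ E ∣ q := by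
  intro h1
  apply h
  unfold rad
  apply Finset.dvd_prod_of_mem
  rw [Finset.mem_filter, Nat.mem_primeFactors]
  exact ⟨⟨hp, (dvd_pow_self p (by omega)).trans h1, by omega⟩, h1⟩

lemma xc_smul (b h c n : ℕ) (ds : List ℕ) (β : ℕ) (w U : ℕ → ℚ) (t : ℚ) :
    xc b h c n ds β (fun i => t * w i) (fun i => t * U i) = t * xc b h c n ds β w U := by
  unfold xc
  rw [Finset.mul_sum]
  apply Finset.sum_congr rfl
  intro i _
  rw [mul_sub, Finset.mul_sum]
  congr 1
  · ring
  · apply Finset.sum_congr rfl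
    intro δ _
    ring

lemma Zc_smul (β : ℕ) (w : ℕ → ℚ) (t : ℚ) (i : ℕ) :
    Zc β (fun i => t * w i) i = t * Zc β w i := by
  unfold Zc
  rw [Finset.mul_sum]
  apply Finset.sum_congr rfl
  intro δ _
  push_cast
  ring

lemma norm_div_le {p : ℕ} [hp : Fact p.Prime] {q E : ℕ} (hq : 0 < q) (hE : ¬ p ^ E ∣ q) (z : ℤ) :
    padicNorm p ((z : ℚ) / q) ≤ (p : ℚ) ^ (E - 1) := by
  have hp1 : (1 : ℚ) ≤ p := by exact_mod_cast hp.out.one_lt.le
  have hq0 : (q : ℚ) ≠ 0 := by exact_mod_cast hq.ne'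
  rw [padicNorm.div, padicNorm.eq_zpow_of_nonzero hq0, padicValRat.of_nat]
  have h1 : padicNorm p (z : ℚ) ≤ 1 := padicNorm.of_int z
  have h2 : padicValNat p q < E := by
    by_contra h3
    push Not at h3
    exact hE ((padicValNat_dvd_iff_le hq.ne').2 h3)
  have hp0 : (0 : ℚ) < p := by linarith
  rw [zpow_neg, div_inv_eq_mul, zpow_natCast]
  calc _ ≤ 1 * (p : ℚ) ^ (padicValNat p q) := mul_le_mul_of_nonneg_right h1 (by positivity)
    _ = (p : ℚ) ^ (padicValNat p q) := one_mul _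
    _ ≤ _ := pow_le_pow_right₀ hp1 (by omega)

set_option maxHeartbeats 1000000 in
/-- the quantitative criterion for fixed integer weights -/
theorem fcriterion (b h c D : ℕ) (ds : List ℕ) (H : Params b h c D ds)
    (x : ℕ × ℕ × ℕ) (L : List (ℕ × ℕ × ℕ)) (hV : Valid b h c ds (x :: L)) (hI : Inc (x :: L))
    (hx1 : x.1 = 1) (hx2 : x.2.1 = h - D - c) (hpos : ∀ y ∈ x :: L, 0 < y.2.1)
    (hlast : 0 < ((x :: L).getLast (by simp)).1) (S : ℝ)
    (hS : ∀ τ : ℝ, 0 ≤ τ → f0 b h c ds τ ≤ S)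
    (τ G : ℝ) (hτ : 0 < τ) (hG0 : 0 ≤ G)
    (hneg : S + (cost (x :: L) + ((b - 1 + ds.length : ℕ) : ℝ) *
      ((((x :: L).getLast (by simp)).2.1 : ℝ) / ((x :: L).getLast (by simp)).1)) ≤ -τ)
    (hG : cost (x :: L) + ((b - 1 + ds.length : ℕ) : ℝ) *
      ((((x :: L).getLast (by simp)).2.1 : ℝ) / ((x :: L).getLast (by simp)).1) +
      (b * h + (ds.map fun d => h - 2 * d).sum : ℕ) * Real.log 2 ≤ G)
    (β : ℕ) (hβ : β + 1 ≤ b) (E : ℕ) (hE : 1 ≤ E) (hEμ : ∀ n, 1 ≤ n → E ≤ mu h n ds ((h - D) * n) + β)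
    (A : ℕ → ℤ) (hA : A β ≠ 0)
    (K : ℝ) (hK : (1 / τ + ((h - D - c).totient : ℝ) / E / ((h - D - c : ℕ) : ℝ)) * G < K) :
    ∀ᶠ q : ℕ in atTop, ∀ P : ℕ → ℤ, ∃ i, Odd i ∧ 3 ≤ i ∧ i ≤ ds.length ∧
      (q : ℝ) ^ (-K) ≤ |q * Zc β (fun δ => (A δ : ℚ)) i - P i| := by
  set Γ : ℝ := cost (x :: L) + ((b - 1 + ds.length : ℕ) : ℝ) *
      ((((x :: L).getLast (by simp)).2.1 : ℝ) / ((x :: L).getLast (by simp)).1) with hΓ
  set B : ℝ := (b * h + (ds.map fun d => h - 2 * d).sum : ℕ) * Real.log 2 with hB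
  have hκ : 2 ≤ h - D - c := by
    have := H.hcc
    have := H.hDD
    have := H.hc D H.hDm
    omega
  set κ := h - D - c with hκdef
  have hκr : (2 : ℝ) ≤ κ := by exact_mod_cast hκ
  have hκ0 : (0 : ℝ) < κ := by linarith
  have hE0 : (0 : ℝ) < E := by exact_mod_cast hE
  have hch : c < h := by have := H.hcc; omega
  obtain ⟨a, lam, ε, ha, hlam, hε, hα, hKK⟩ := choose_par (τ := τ) (G := G) (f := (κ.totient : ℝ) / E) (κ := κ) (K := K)
    hτ hκ0 hK
  have ev1 := comb_bound' b h c ds H.hc H.h2 hch (by have := H.hcc; have := H.hc D H.hDm; omega) H.hlen H.hdeg S hS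
    ε hε
  have ev2 := log_Dn_le b h ds.length x L hI hpos hlast ε hε
  have ev3 := rho_bound b h c ds H.hc H.h2 ε hε
  have ev4 : ∀ᶠ n : ℕ in atTop, ∀ y ∈ x :: L, y.2.1 ^ 2 ≤ h * n := by
    obtain ⟨B, hB⟩ : ∃ B : ℕ, ∀ y ∈ x :: L, y.2.1 ≤ B := by
      refine ⟨((x :: L).map fun y => y.2.1).sum, fun y hy => ?_⟩
      exact List.single_le_sum (fun _ _ => Nat.zero_le _) _ (List.mem_map_of_mem hy)
    filter_upwards [eventually_ge_atTop (B ^ 2)] with n hn y hy
    have h1 := hB y hy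
    have h2 : y.2.1 ^ 2 ≤ B ^ 2 := Nat.pow_le_pow_left h1 2
    have h3 : 1 ≤ h := by have := H.hcc; omega
    nlinarith
  obtain ⟨N, hN⟩ := eventually_atTop.1 (ev1.and (ev2.and (ev3.and ev4)))
  obtain ⟨X0, hX0⟩ := eventually_atTop.1 (exists_prime κ (by omega) lam (1 / (a * E)) (by positivity) (by
    have : 1 / (a * E) * (κ.totient : ℝ) = 1 / a * (κ.totient / E) := by
      field_simp
    rw [this]; exact hlam))
  have hb0 : (0 : ℝ) < b := by
    have := H.hb
    exact_mod_cast (by omega : 0 < b)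
  have hτε : 0 < τ - 2 * ε := by
    by_contra hle
    push Not at hle
    have : a / κ * (τ - 2 * ε) ≤ 0 := mul_nonpos_of_nonneg_of_nonpos (by positivity) hle
    linarith
  have hlam0 : 0 < lam := by
    have : 0 ≤ 1 / a * ((κ.totient : ℝ) / E) := by positivity
    linarith
  -- a bound for the weights
  set A0 : ℕ := ∑ δ ∈ Finset.range (β + 1), (A δ).natAbs with hA0
  have hAle : ∀ δ, δ ≤ β → (A δ).natAbs ≤ A0 := fun δ hδ =>
    Finset.single_le_sum (f := fun δ => (A δ).natAbs) (fun _ _ => Nat.zero_le _) (Finset.mem_range.2 (by omega))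
  have hA00 : 0 < A0 := lt_of_lt_of_le (Int.natAbs_pos.2 hA) (hAle β le_rfl)
  have hA0r : (0 : ℝ) < A0 := by exact_mod_cast hA00
  set c1 : ℝ := a / κ * (τ - 2 * ε) - 1 with hc1
  have hc10 : 0 < c1 := by linarith
  set c2 : ℝ := K - lam * a / κ * (G + 2 * ε) with hc2
  have hc20 : 0 < c2 := by linarith
  set M : ℕ := X0 + κ * (N + 2) + h ^ 2 + ds.length + b + A0 with hM
  have hlogq : Tendsto (fun q : ℕ => Real.log q) atTop atTop :=
    Real.tendsto_log_atTop.comp tendsto_natCast_atTop_atTop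
  filter_upwards [eventually_ge_atTop 2, hlogq.eventually_ge_atTop ((Real.log b + Real.log A0 + Real.log 2) / c1),
    hlogq.eventually_gt_atTop (((lam + 1) / κ * (G + 2 * ε) + Real.log 2) / c2),
    hlogq.eventually_ge_atTop (M / a)] with q hq2 hl1 hl2 hl3 P
  by_contra hcon
  push Not at hcon
  have hqr : (2 : ℝ) ≤ q := by exact_mod_cast hq2
  have hq0 : (0 : ℝ) < q := by linarith
  set lq : ℝ := Real.log q with hlq
  have hlq0 : 0 < lq := Real.log_pos (by linarith)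
  rw [div_le_iff₀ hc10] at hl1
  rw [div_lt_iff₀ hc20] at hl2
  rw [div_le_iff₀ ha] at hl3
  -- the prime
  set X : ℕ := ⌈a * lq⌉₊ with hX
  have hXge : a * lq ≤ X := Nat.le_ceil _
  have hXlt : (X : ℝ) < a * lq + 1 := Nat.ceil_lt_add_one (by positivity)
  have hXM : M ≤ X := by
    have : (M : ℝ) ≤ X := by linarith
    exact_mod_cast this
  obtain ⟨p, hp, hpmod, hXp, hpX, hpQ⟩ := hX0 X (by omega) (rad E q) (rad_pos E q) (by
    refine (rad_log hE (by omega)).trans ?_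
    rw [div_mul_eq_mul_div, one_mul, le_div_iff₀ (by positivity)]
    calc lq / E * (a * E) = a * lq := by field_simp
      _ ≤ X := hXge)
  have : NeZero κ := ⟨by omega⟩
  have hdvd : κ ∣ p + 1 := by
    rw [← CharP.cast_eq_zero_iff (ZMod κ) κ (p + 1)]
    push_cast
    rw [hpmod]; ring
  obtain ⟨n, hn⟩ := hdvd
  have hpn : p + 1 = κ * n := hn
  have hNn : N + 2 ≤ n := by
    by_contra h1
    have h2 : κ * n ≤ κ * (N + 2) := Nat.mul_le_mul_left κ (by omega)
    omega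
  have hnp : n ≤ p := by
    have h2 : 2 * n ≤ κ * n := Nat.mul_le_mul_right n hκ
    omega
  have hp2 : h * n < p ^ 2 := by
    have h1 : h ^ 2 < p := by omega
    have h2 : h ≤ h ^ 2 := by
      have : 1 ≤ h := by have := H.hcc; omega
      nlinarith
    calc h * n ≤ h * p := Nat.mul_le_mul_left h hnp
      _ < p * p := by
        apply Nat.mul_lt_mul_of_pos_right _ hp.pos
        omega
      _ = p ^ 2 := by ring
  obtain ⟨h1, h2, h3, h4⟩ := hN n (by omega)
  have hDpos := Dn_pos b h n ds.length x L (by omega)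
  have hDr : (0 : ℝ) < (Dn b h n ds.length x L : ℝ) := by exact_mod_cast hDpos
  have hη : (q : ℝ) ^ (-K) = Real.exp (-K * lq) := by
    rw [Real.rpow_def_of_pos hq0, mul_comm]
  have : Fact p.Prime := ⟨hp⟩
  have hwn' : padicNorm p ((A β : ℚ)) = 1 := by
    rw [padicNorm.int_eq_one_iff]
    intro h5
    have h6 : p ∣ (A β).natAbs := by
      rwa [← Int.natCast_dvd_natCast, Int.dvd_natAbs]
    have h7 := Nat.le_of_dvd (Int.natAbs_pos.2 hA) h6
    have h8 := hAle β le_rfl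
    omega
  have hq0Q : (q : ℚ) ≠ 0 := by
    have : q ≠ 0 := by omega
    exact_mod_cast this
  have hpE := not_pow_dvd hE (by omega) hp hpQ
  have hne := xc_ne_zero' (p := p) b h c n D ds H.hb (by omega) H.hDm H.hD H.hc H.h2 H.hcc H.hDD hpn hp2
    β hβ (by omega) (fun i => (A i : ℚ)) (fun i => (P i : ℚ) / q) hwn' (fun i => padicNorm.of_int _)
    (fun i => (norm_div_le (by omega) hpE (P i)).trans (by
      have hp1 : (1 : ℚ) ≤ p := by exact_mod_cast hp.one_lt.le
      apply pow_le_pow_right₀ hp1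
      have := hEμ n (by omega)
      omega))
  have hne2 : xc b h c n ds β (fun i => (((q : ℤ) * A i : ℤ) : ℚ)) (fun i => (P i : ℚ)) ≠ 0 := by
    have h5 := xc_smul b h c n ds β (fun i => (A i : ℚ)) (fun i => (P i : ℚ) / q) q
    have e1 : (fun i => (((q : ℤ) * A i : ℤ) : ℚ)) = (fun i => (q : ℚ) * (A i : ℚ)) := by
      funext i; push_cast; ring
    have e2 : (fun i => (P i : ℚ)) = (fun i => (q : ℚ) * ((P i : ℚ) / q)) := by
      funext i; field_simp
    rw [e1, e2, h5]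
    exact mul_ne_zero hq0Q hne
  have hZ : ∀ i, Zc β (fun i => (((q : ℤ) * A i : ℤ) : ℚ)) i = q * Zc β (fun δ => (A δ : ℚ)) i := by
    intro i
    have h5 := Zc_smul β (fun i => (A i : ℚ)) q i
    have e1 : (fun i => (((q : ℤ) * A i : ℤ) : ℚ)) = (fun i => (q : ℚ) * (A i : ℚ)) := by
      funext i; push_cast; ring
    rw [e1, h5]
    push_cast
    ring
  have key := one_step b h c D ds H x L hV hx1 hx2 hlast β hβ (fun i => (q : ℤ) * A i) n (by omega)
    (fun y hy => ⟨h4 y hy, hpos y hy⟩) P hne2 ((q : ℝ) ^ (-K)) (by positivity)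
    (fun i hi1 hi2 hi3 => by
      have h5 := (hcon i hi1 hi2 hi3).le
      rw [hZ, abs_sub_comm]
      exact h5)
    ((b * (q * A0)) * Real.exp (n * (S + ε))) (Real.exp ((Γ + ε) * n)) (Real.exp (n * (B + ε)))
    (fun F hF => h1 β hβ (fun δ => (((q : ℤ) * A δ : ℤ) : ℚ)) (q * A0) (fun δ hδ => by
      have h5 := hAle δ hδ
      have h6 : ((A δ).natAbs : ℝ) ≤ A0 := by exact_mod_cast h5
      have h7 : |((A δ : ℤ) : ℝ)| = ((A δ).natAbs : ℝ) := by
        rw [Nat.cast_natAbs, Int.cast_abs]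
      push_cast
      rw [abs_mul, abs_of_pos hq0, h7]
      exact mul_le_mul_of_nonneg_left h6 hq0.le) F hF) (by rw [← Real.log_le_iff_le_exp hDr]; exact h2) h3
  -- sizes of `n`
  have hn0 : (0 : ℝ) < n := by exact_mod_cast (by omega : 0 < n)
  have hnlow : a / κ * lq ≤ n := by
    have h5 : (X : ℝ) ≤ κ * n := by
      have : X ≤ κ * n := by omega
      exact_mod_cast this
    rw [div_mul_eq_mul_div, div_le_iff₀ hκ0]
    linarith
  have hnup : (n : ℝ) ≤ lam * a / κ * lq + (lam + 1) / κ := by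
    have h5 : (κ : ℝ) * n ≤ lam * X + 1 := by
      have : ((p + 1 : ℕ) : ℝ) = ((κ * n : ℕ) : ℝ) := by rw [hpn]
      push_cast at this
      linarith
    have h6 : lam * (X : ℝ) ≤ lam * (a * lq + 1) := mul_le_mul_of_nonneg_left hXlt.le hlam0.le
    have h7 : lam * a / κ * lq + (lam + 1) / κ = (lam * (a * lq + 1) + 1) / κ := by
      field_simp
      ring
    rw [h7, le_div_iff₀ hκ0]
    linarith
  have t1 : Real.exp ((Γ + ε) * n) * ((b * (q * A0)) * Real.exp (n * (S + ε))) ≤ 1 / 2 := by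
    apply term1 hneg (by positivity) hn0.le
    rw [Real.log_mul hb0.ne' (by positivity), Real.log_mul hq0.ne' hA0r.ne', neg_neg]
    have h5 : a / κ * lq * (τ - 2 * ε) ≤ n * (τ - 2 * ε) := mul_le_mul_of_nonneg_right hnlow hτε.le
    have h6 : a / κ * lq * (τ - 2 * ε) = lq * c1 + lq := by rw [hc1]; ring
    linarith
  have t2 : Real.exp ((Γ + ε) * n) * (Real.exp (-K * lq) * Real.exp (n * (B + ε))) < 1 / 2 := by
    apply term2
    have hGε : 0 ≤ G + 2 * ε := by linarith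
    have h5 : n * (Γ + B + 2 * ε) ≤ n * (G + 2 * ε) := by
      apply mul_le_mul_of_nonneg_left _ hn0.le
      linarith
    have h6 : n * (G + 2 * ε) ≤ (lam * a / κ * lq + (lam + 1) / κ) * (G + 2 * ε) :=
      mul_le_mul_of_nonneg_right hnup hGε
    have h7 : (lam * a / κ * lq + (lam + 1) / κ) * (G + 2 * ε) = K * lq - lq * c2 + (lam + 1) / κ * (G + 2 * ε) := by
      rw [hc2]; ring
    linarith
  rw [hη, mul_add] at key
  linarith

end

end Pool.Agent.TH957.WM
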