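import Pool.Agent.TH957.WM.CritF
import Pool.Agent.W339.ZC.Fam

/-!
# Families of parameters
-/

open Polynomial Filter Topology Pool.Agent.H337R2 Pool.Agent.W339.ZC

namespace Pool.Agent.TH957.WM

noncomputable section

set_option autoImplicit false

lemma sum_ind (D : ℕ) (l : List ℕ) : (l.map fun d => if d = D then 1 else 0).sum = l.count D := by
  induction l with
  | nil => simp
  | cons a l ih =>
    rw [List.map_cons, List.sum_cons, ih, List.count_cons]
    by_cases h : a = D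
    · simp [h, add_comm]
    · simp [h]

lemma count_comb (dm dmB : List (ℕ × ℕ)) (m D : ℕ) :
    (expd (comb dm dmB m)).count D = (expd dm).count D + m * (expd dmB).count D := by
  rw [← sum_ind, ← sum_ind, ← sum_ind, sum_comb, smul_eq_mul]

lemma count_le_mu (h D n : ℕ) (ds : List ℕ) (hD : 2 * D < h) : ds.count D ≤ mu h n ds ((h - D) * n) := by
  unfold mu
  rw [List.count_eq_countP]
  apply List.countP_mono_left
  intro d _ hd
  rw [beq_iff_eq] at hd
  subst hd
  rw [decide_eq_true_eq]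
  have h1 : d * n ≤ (h - d) * n := Nat.mul_le_mul_right n (by omega)
  have h2 : (h - d) * n + d * n = h * n := by
    rw [← Nat.add_mul]
    congr 1
    omega
  exact ⟨h1, h2.le⟩

theorem certU_measure {b B h c D : ℕ} {dm dmB : List (ℕ × ℕ)} {C CB : List (ℕ × ℕ × ℕ)} {q X l : ℕ} {G : List ℕ}
    {q' X' l' : ℕ} {G' : List ℕ} {Sc : ℕ}
    (H : CertU b B h c D dm dmB C CB q X l G q' X' l' G' Sc) (m : ℕ) (g0 gB : ℚ)
    (hg0 : (costN Sc C : ℚ) / Sc +
      ((b - 1 + (expd dm).length : ℕ) : ℚ) * (((C.getLast H.hne).2.1 : ℚ) / (C.getLast H.hne).1) ≤ g0)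
    (hgB : (costN Sc CB : ℚ) / Sc +
      ((B + (expd dmB).length : ℕ) : ℚ) * (((C.getLast H.hne).2.1 : ℚ) / (C.getLast H.hne).1) ≤ gB)
    (hg00 : 0 ≤ g0) (hgB0 : 0 ≤ gB)
    (τ : ℝ) (hτ : 0 < τ) (hτ' : τ ≤ ((X : ℝ) / q - g0) + m * ((X' : ℝ) / q' - gB)) :
    (∀ K : ℝ, (1 / τ + ((h - D - c).totient : ℝ) / ((h - D - c : ℕ) : ℝ)) *
      (g0 + m * gB + ((b * h + ((expd dm).map fun d => h - 2 * d).sum : ℕ) +
        m * (B * h + ((expd dmB).map fun d => h - 2 * d).sum : ℕ)) * Real.log 2) < K →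
    ∀ᶠ q : ℕ in atTop, ∀ w : ℕ → ℤ, (∀ δ, δ < b + B * m → |w δ| ≤ q) → (∃ δ, δ < b + B * m ∧ w δ ≠ 0) →
      ∀ P : ℕ → ℤ, ∃ i, Odd i ∧ 3 ≤ i ∧ i ≤ (expd dm).length + m * (expd dmB).length ∧
      (q : ℝ) ^ (-K) ≤ |Zc (b + B * m - 1) (fun δ => (w δ : ℚ)) i - P i|) ∧
    (∀ β : ℕ, β + 1 ≤ b + B * m → ∀ E : ℕ, 1 ≤ E → E ≤ (expd dm).count D + m * (expd dmB).count D + β →
      ∀ A : ℕ → ℤ, A β ≠ 0 →
      ∀ K : ℝ, (1 / τ + ((h - D - c).totient : ℝ) / E / ((h - D - c : ℕ) : ℝ)) *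
      (g0 + m * gB + ((b * h + ((expd dm).map fun d => h - 2 * d).sum : ℕ) +
        m * (B * h + ((expd dmB).map fun d => h - 2 * d).sum : ℕ)) * Real.log 2) < K →
      ∀ᶠ q : ℕ in atTop, ∀ P : ℕ → ℤ, ∃ i, Odd i ∧ 3 ≤ i ∧ i ≤ (expd dm).length + m * (expd dmB).length ∧
      (q : ℝ) ^ (-K) ≤ |q * Zc β (fun δ => (A δ : ℚ)) i - P i|) := by
  have hdD : ∀ d ∈ expd (comb dm dmB m), D ≤ d ∧ 2 * d < h := by
    intro d hd
    rcases mem_comb hd with hd' | hd'
    · obtain ⟨z, hz, hzd⟩ := mem_expd hd'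
      have := H.hdm z hz
      omega
    · obtain ⟨z, hz, hzd⟩ := mem_expd hd'
      have := H.hdmB z hz
      omega
  have hcc := H.hcc
  have hcD := H.hcD
  have hb := H.hb
  have hc : ∀ d ∈ expd (comb dm dmB m), c < d := fun d hd => by have := hdD d hd; omega
  have h2 : ∀ d ∈ expd (comb dm dmB m), 2 * d < h := fun d hd => (hdD d hd).2
  have hlen := length_comb dm dmB m
  have hlen3 : 3 ≤ (expd (comb dm dmB m)).length := by
    rw [hlen]; have := H.hlen; omega
  have hev : Even (expd (comb dm dmB m)).length := by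
    rw [hlen]; exact H.hev.add (H.hevB.mul_left m)
  have hdeg : 2 * (b + B * m) * c ≤ ((expd (comb dm dmB m)).map fun d => h - 2 * d).sum := by
    rw [sum_comb, smul_eq_mul]
    have h1 := H.hdeg
    have h3 := Nat.mul_le_mul_left m H.hdegB
    have e : 2 * (b + B * m) * c = 2 * b * c + m * (2 * B * c) := by ring
    omega
  have hDm : D ∈ expd (comb dm dmB m) := by
    unfold comb
    rw [expd_append, List.mem_append]
    exact Or.inl H.hDm
  have P : Params (b + B * m) h c D (expd (comb dm dmB m)) :=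
    ⟨by omega, hDm, fun d hd => (hdD d hd).1, hc, h2, H.hcc, H.hDD, hlen3, hev, hdeg⟩
  obtain ⟨hV, hI, hcost⟩ := mix_valid (m := m) H.hcD H.hcc H.hDD H.hdm H.hdmB C CB H.hC H.hCB H.hsame
  have hIC : Inc C := (cellsOK_sound H.hcD H.hcc H.hDD H.hdm C H.hC).2
  have hc1 := cost_leI Sc H.hSc C hIC
  have hc2 := cost_leI Sc H.hSc CB (Inc_of_same C CB H.hsame hIC)
  set S : ℝ := -(X : ℝ) / q + m * (-(X' : ℝ) / q') with hS
  have hsup : ∀ τ : ℝ, 0 ≤ τ → f0 (b + B * m) h c (expd (comb dm dmB m)) τ ≤ S := by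
    intro τ hτ
    rw [f0_comb]
    have a1 := realOK_sound H.hq (by omega) (fun z hz => (H.hdm z hz).1) l G H.hX hτ
    have a2 := realOK_sound H.hq' (by omega) (fun z hz => (H.hdmB z hz).1) l' G' H.hX' hτ
    have a3 : (m : ℝ) * f0 B h c (expd dmB) τ ≤ m * (-(X' : ℝ) / q') := mul_le_mul_of_nonneg_left a2 (by positivity)
    linarith
  have hg0' : (costN Sc C : ℝ) / Sc + ((b - 1 + (expd dm).length : ℕ) : ℝ) *
      (((C.getLast H.hne).2.1 : ℝ) / (C.getLast H.hne).1) ≤ g0 := by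
    have h4 : (((costN Sc C : ℚ) / Sc +
      ((b - 1 + (expd dm).length : ℕ) : ℚ) * (((C.getLast H.hne).2.1 : ℚ) / (C.getLast H.hne).1) : ℚ) : ℝ) ≤ (g0 : ℝ) := by
      exact_mod_cast hg0
    rw [Rat.cast_add, Rat.cast_div, Rat.cast_natCast, Rat.cast_natCast, Rat.cast_mul,
      Rat.cast_div, Rat.cast_natCast, Rat.cast_natCast, Rat.cast_natCast] at h4
    exact h4
  have hgB' : (costN Sc CB : ℝ) / Sc + ((B + (expd dmB).length : ℕ) : ℝ) *
      (((C.getLast H.hne).2.1 : ℝ) / (C.getLast H.hne).1) ≤ gB := by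
    have h4 : (((costN Sc CB : ℚ) / Sc +
      ((B + (expd dmB).length : ℕ) : ℚ) * (((C.getLast H.hne).2.1 : ℚ) / (C.getLast H.hne).1) : ℚ) : ℝ) ≤ (gB : ℝ) := by
      exact_mod_cast hgB
    rw [Rat.cast_add, Rat.cast_div, Rat.cast_natCast, Rat.cast_natCast, Rat.cast_mul,
      Rat.cast_div, Rat.cast_natCast, Rat.cast_natCast, Rat.cast_natCast] at h4
    exact h4
  have hmap := mix_map m C CB H.hsame
  have hmlen := mix_len m C CB H.hsame
  have hgl : ∀ hne' : mix m C CB ≠ [], ((mix m C CB).getLast hne').1 = (C.getLast H.hne).1 ∧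
      ((mix m C CB).getLast hne').2.1 = (C.getLast H.hne).2.1 := by
    intro hne'
    have e1 : ((mix m C CB).map (fun x => (x.1, x.2.1))).getLast (by simpa using hne') =
        (C.map (fun x => (x.1, x.2.1))).getLast (by simpa using H.hne) := by
      simp only [hmap]
    rw [List.getLast_map, List.getLast_map] at e1
    have e2 := Prod.ext_iff.1 e1
    exact ⟨e2.1, e2.2⟩
  have hposm : ∀ y ∈ mix m C CB, 0 < y.2.1 := by
    intro y hy
    have h3 : (y.1, y.2.1) ∈ (mix m C CB).map (fun x => (x.1, x.2.1)) := List.mem_map_of_mem hy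
    rw [hmap, List.mem_map] at h3
    obtain ⟨z, hz, hz2⟩ := h3
    have h4 := H.hpos z hz
    have h5 := (Prod.ext_iff.1 hz2).2
    simp only at h5
    omega
  obtain ⟨x, L, hxL⟩ : ∃ x L, mix m C CB = x :: L := by
    apply List.exists_cons_of_ne_nil
    intro h3
    rw [h3] at hmlen
    exact H.hne (List.length_eq_zero_iff.1 hmlen.symm)
  have hhead : x.1 = 1 ∧ x.2.1 = h - D - c := by
    obtain ⟨y, M, hyM⟩ : ∃ x L, C = x :: L := List.exists_cons_of_ne_nil H.hne
    have h3 := H.hhead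
    simp only [hyM, List.head_cons] at h3
    rw [hxL, hyM, List.map_cons, List.map_cons] at hmap
    have h4 := (List.cons.inj hmap).1
    have h5 := Prod.ext_iff.1 h4
    simp only at h5
    rw [h5.1, h5.2]
    exact h3
  have hgl' := hgl (by rw [hxL]; simp)
  simp only [hxL] at hgl' hposm hV hI hcost
  have e1 : ((b + B * m - 1 + ((expd dm).length + m * (expd dmB).length) : ℕ) : ℝ) =
      ((b - 1 + (expd dm).length : ℕ) : ℝ) + m * ((B + (expd dmB).length : ℕ) : ℝ) := by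
    rw [← Nat.cast_mul, ← Nat.cast_add]
    congr 1
    have : B * m = m * B := mul_comm _ _
    rw [Nat.mul_add]
    omega
  have hm0 : (0 : ℝ) ≤ m := by positivity
  have hΓ : cost (x :: L) + ((b + B * m - 1 + (expd (comb dm dmB m)).length : ℕ) : ℝ) *
      ((((x :: L).getLast (by simp)).2.1 : ℝ) / ((x :: L).getLast (by simp)).1) ≤ g0 + m * gB := by
    rw [hcost, hgl'.1, hgl'.2, hlen, e1]
    set z : ℝ := ((C.getLast H.hne).2.1 : ℝ) / (C.getLast H.hne).1
    have a1 := mul_le_mul_of_nonneg_left hgB' hm0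
    have a2 := mul_le_mul_of_nonneg_left hc2 hm0
    nlinarith
  have hsum : ((expd (comb dm dmB m)).map fun d => h - 2 * d).sum =
      ((expd dm).map fun d => h - 2 * d).sum + m * ((expd dmB).map fun d => h - 2 * d).sum := by
    rw [sum_comb, smul_eq_mul]
  have e2 : (((b + B * m) * h + ((expd (comb dm dmB m)).map fun d => h - 2 * d).sum : ℕ) : ℝ) =
      ((b * h + ((expd dm).map fun d => h - 2 * d).sum : ℕ) +
        m * (B * h + ((expd dmB).map fun d => h - 2 * d).sum : ℕ) : ℝ) := by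
    rw [hsum]
    push_cast
    ring
  have hlog2 : 0 ≤ Real.log 2 := Real.log_nonneg (by norm_num)
  have hG0 : 0 ≤ (g0 + m * gB + ((b * h + ((expd dm).map fun d => h - 2 * d).sum : ℕ) +
        m * (B * h + ((expd dmB).map fun d => h - 2 * d).sum : ℕ)) * Real.log 2 : ℝ) := by
    have h3 : (0 : ℝ) ≤ g0 := by exact_mod_cast hg00
    have h4 : (0 : ℝ) ≤ gB := by exact_mod_cast hgB0
    positivity
  have hneg : S + (cost (x :: L) + ((b + B * m - 1 + (expd (comb dm dmB m)).length : ℕ) : ℝ) *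
      ((((x :: L).getLast (by simp)).2.1 : ℝ) / ((x :: L).getLast (by simp)).1)) ≤ -τ := by
    have h3 : S + (g0 + m * gB) ≤ -τ := by
      rw [hS]
      have h4 : -(X : ℝ) / q = -((X : ℝ) / q) := neg_div _ _
      have h5 : -(X' : ℝ) / q' = -((X' : ℝ) / q') := neg_div _ _
      rw [h4, h5]
      linarith
    linarith
  have hGG : cost (x :: L) + ((b + B * m - 1 + (expd (comb dm dmB m)).length : ℕ) : ℝ) *
      ((((x :: L).getLast (by simp)).2.1 : ℝ) / ((x :: L).getLast (by simp)).1) +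
      ((b + B * m) * h + ((expd (comb dm dmB m)).map fun d => h - 2 * d).sum : ℕ) * Real.log 2 ≤
      g0 + m * gB + ((b * h + ((expd dm).map fun d => h - 2 * d).sum : ℕ) +
        m * (B * h + ((expd dmB).map fun d => h - 2 * d).sum : ℕ)) * Real.log 2 := by
    rw [e2]
    linarith
  constructor
  · intro K hK
    have hfin := qcriterion (b + B * m) h c D (expd (comb dm dmB m)) P x L hV hI hhead.1 hhead.2 hposm
      (by rw [hgl'.1]; exact H.hlast) S hsup τ _ hτ hG0 hneg hGG K hK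
    rw [hlen] at hfin
    exact hfin
  · intro β hβ E hE1 hE A hA K hK
    have hfin := fcriterion (b + B * m) h c D (expd (comb dm dmB m)) P x L hV hI hhead.1 hhead.2 hposm
      (by rw [hgl'.1]; exact H.hlast) S hsup τ _ hτ hG0 hneg hGG β hβ E hE1 (fun n _ => by
        have h3 := count_le_mu h D n (expd (comb dm dmB m)) (by
          have := H.hdm
          have h4 := hdD D hDm
          exact h4.2)
        rw [count_comb] at h3
        omega) A hA K hK
    rw [hlen] at hfin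
    exact hfin

end

end Pool.Agent.TH957.WM
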