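import Pool.Agent.Helper923.PNT

/-!
# A prime in a residue class, in a short range, not dividing a given number
-/

open Filter Topology ArithmeticFunction

namespace Pool.Agent.TH957.WM

noncomputable section

set_option autoImplicit false

/-- the primes `≤ y` in the residue class `a` -/
def clsP (N : ℕ) (a : ZMod N) (x : ℕ) : Finset ℕ := by
  classical
  exact (Finset.Icc 1 x).filter (fun p : ℕ => p.Prime ∧ (p : ZMod N) = a)

lemma mem_clsP {N : ℕ} {a : ZMod N} {x p : ℕ} : p ∈ clsP N a x ↔ (1 ≤ p ∧ p ≤ x) ∧ p.Prime ∧ (p : ZMod N) = a := by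
  unfold clsP
  rw [Finset.mem_filter, Finset.mem_Icc]

theorem cls_lower (N : ℕ) (a : ZMod N) (y : ℕ) :
    ∑ k ∈ Finset.Icc 1 y, vonMangoldt.residueClass a k
      ≤ ∑ p ∈ clsP N a y, Real.log p + (Chebyshev.psi y - Chebyshev.theta y) := by
  classical
  have hpsi : Chebyshev.psi y = ∑ k ∈ Finset.Icc 1 y, vonMangoldt k := by
    unfold Chebyshev.psi
    rw [Nat.floor_natCast]
    rfl
  have htheta : Chebyshev.theta y = ∑ k ∈ (Finset.Icc 1 y).filter Nat.Prime, Real.log k := by
    unfold Chebyshev.theta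
    rw [Nat.floor_natCast]
    rfl
  rw [hpsi, htheta]
  have h1 : ∀ k ∈ Finset.Icc 1 y, vonMangoldt.residueClass a k
      ≤ (if k.Prime ∧ (k : ZMod N) = a then Real.log k else 0) +
        (vonMangoldt k - (if k.Prime then Real.log k else 0)) := by
    intro k hk
    rw [Finset.mem_Icc] at hk
    by_cases hp : k.Prime
    · have hL : vonMangoldt k = Real.log k := vonMangoldt_apply_prime hp
      by_cases h4 : (k : ZMod N) = a
      · have : vonMangoldt.residueClass a k = vonMangoldt k := by
          unfold vonMangoldt.residueClass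
          rw [Set.indicator_of_mem]
          exact h4
        rw [this, hL]
        simp only [hp, h4, and_self, if_true]
        linarith
      · have : vonMangoldt.residueClass a k = 0 := by
          unfold vonMangoldt.residueClass
          rw [Set.indicator_of_notMem]
          exact fun h => h4 h
        rw [this, hL]
        simp [hp, h4]
    · have h2 : vonMangoldt.residueClass a k ≤ vonMangoldt k := vonMangoldt.residueClass_le _ k
      simp only [hp, false_and, if_false]
      linarith
  refine (Finset.sum_le_sum h1).trans ?_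
  rw [Finset.sum_add_distrib, Finset.sum_sub_distrib, ← Finset.sum_filter, ← Finset.sum_filter]
  refine add_le_add ?_ le_rfl
  exact le_rfl

/-- primes dividing `Q` contribute at most `log Q` -/
lemma sum_log_le (s : Finset ℕ) (hs : ∀ p ∈ s, p.Prime) (Q : ℕ) (hQ : 0 < Q) (hd : ∀ p ∈ s, p ∣ Q) :
    ∑ p ∈ s, Real.log p ≤ Real.log Q := by
  have h1 : ∏ p ∈ s, p ∣ Q := Finset.prod_primes_dvd Q (fun p hp => (hs p hp).prime) hd
  rw [← Real.log_prod (fun p hp => by have := (hs p hp).pos; positivity), ← Nat.cast_prod]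
  apply Real.log_le_log
  · exact_mod_cast Finset.prod_pos fun p hp => (hs p hp).pos
  · exact_mod_cast Nat.le_of_dvd hQ h1

theorem exists_prime (κ : ℕ) (hκ : 1 ≤ κ) (lam ρ : ℝ) (hρ : 0 ≤ ρ) (hl : 1 + ρ * κ.totient < lam) :
    ∀ᶠ X : ℕ in atTop, ∀ Q : ℕ, 0 < Q → Real.log Q ≤ ρ * X →
      ∃ p : ℕ, p.Prime ∧ (p : ZMod κ) = -1 ∧ X < p ∧ (p : ℝ) ≤ lam * X ∧ ¬ p ∣ Q := by
  classical
  haveI : NeZero κ := ⟨by omega⟩
  have hφ : (0 : ℝ) < (κ.totient : ℝ) := by exact_mod_cast Nat.totient_pos.2 hκ
  have hlam : 1 < lam := by nlinarith [mul_nonneg hρ hφ.le]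
  have hlam0 : 0 < lam := by linarith
  have hc1 : Tendsto (fun X : ℕ => (X : ℝ)) atTop atTop := tendsto_natCast_atTop_atTop
  have hc2 : Tendsto (fun X : ℕ => lam * (X : ℝ)) atTop atTop := hc1.const_mul_atTop hlam0
  have hp := Pool.Agent.Helper923.PNT.pnt_residueClass (q := κ) (a := -1) isUnit_one.neg
  have g1 := (hp.comp hc2).const_mul lam
  have g2 := hp.comp hc1
  have g3 := ((Pool.Agent.Helper923.PNT.psi_div_tendsto.sub Pool.Agent.Helper923.PNT.theta_div_tendsto).comp hc2).const_mul lam
  have g4 := (g1.sub g3).sub g2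
  have g5 : ρ < lam * ((κ.totient : ℝ)⁻¹) - lam * (1 - 1) - (κ.totient : ℝ)⁻¹ := by
    have : lam * ((κ.totient : ℝ)⁻¹) - lam * (1 - 1) - (κ.totient : ℝ)⁻¹ = (lam - 1) / κ.totient := by
      field_simp
      ring
    rw [this, lt_div_iff₀ hφ]
    linarith
  have g6 := g4.eventually_const_lt g5
  filter_upwards [g6, eventually_ge_atTop 1] with X hX hX1 Q hQ hlog
  simp only [Function.comp, Nat.floor_natCast] at hX
  by_contra hcon
  push Not at hcon
  have hXr : (1 : ℝ) ≤ X := by exact_mod_cast hX1
  have hX0 : (0 : ℝ) < X := by linarith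
  set Y : ℕ := ⌊lam * (X : ℝ)⌋₊ with hY
  have hXY : X ≤ Y := by
    rw [hY, Nat.le_floor_iff (by positivity)]
    nlinarith
  have e1 : Chebyshev.psi (Y : ℝ) = Chebyshev.psi (lam * X) := by
    unfold Chebyshev.psi
    rw [Nat.floor_natCast, hY]
  have e2 : Chebyshev.theta (Y : ℝ) = Chebyshev.theta (lam * X) := by
    unfold Chebyshev.theta
    rw [Nat.floor_natCast, hY]
  have a4 := cls_lower κ (-1) Y
  rw [e1, e2] at a4
  have a5 : ∑ p ∈ clsP κ (-1) Y, Real.log p ≤ Real.log Q + ∑ k ∈ Finset.Icc 1 X, vonMangoldt.residueClass (-1 : ZMod κ) k := by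
    rw [← Finset.sum_filter_add_sum_filter_not _ (fun p => X < p)]
    apply add_le_add
    · apply sum_log_le _ _ Q hQ
      · intro p hp
        rw [Finset.mem_filter, mem_clsP] at hp
        refine hcon p hp.1.2.1 hp.1.2.2 hp.2 ?_
        have := hp.1.1.2
        rw [hY, Nat.le_floor_iff (by positivity)] at this
        exact this
      · intro p hp
        rw [Finset.mem_filter, mem_clsP] at hp
        exact hp.1.2.1
    · calc _ ≤ ∑ p ∈ (clsP κ (-1) Y).filter (fun p => ¬ X < p), vonMangoldt.residueClass (-1 : ZMod κ) p := by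
            apply Finset.sum_le_sum
            intro p hp
            rw [Finset.mem_filter, mem_clsP] at hp
            unfold vonMangoldt.residueClass
            rw [Set.indicator_of_mem]
            · exact (vonMangoldt_apply_prime hp.1.2.1).ge
            · exact hp.1.2.2
        _ ≤ _ := by
            apply Finset.sum_le_sum_of_subset_of_nonneg
            · intro p hp
              rw [Finset.mem_filter, mem_clsP] at hp
              rw [Finset.mem_Icc]
              exact ⟨hp.1.1.1, by omega⟩
            · intro p _ _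
              exact vonMangoldt.residueClass_nonneg _ _
  set S1 := ∑ k ∈ Finset.Icc 1 Y, vonMangoldt.residueClass (-1 : ZMod κ) k with hS1
  set S2 := ∑ k ∈ Finset.Icc 1 X, vonMangoldt.residueClass (-1 : ZMod κ) k with hS2
  have e3 : lam * (S1 / (lam * X)) - lam * (Chebyshev.psi (lam * X) / (lam * X) - Chebyshev.theta (lam * X) / (lam * X)) -
      S2 / X = (S1 - (Chebyshev.psi (lam * X) - Chebyshev.theta (lam * X)) - S2) / X := by
    field_simp
  rw [e3, lt_div_iff₀ hX0] at hX
  linarith

end

end Pool.Agent.TH957.WM
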