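import Pool.Agent.TH957.WM.Coef
import Pool.Agent.TH957.WM.Prime
import Pool.Agent.W339.ZC.Crit

/-!
# The linear form at arbitrary rational points, and the size of its coefficients
-/

open Polynomial Filter Topology Pool.Agent.H337R2 Pool.Agent.W339.ZC

namespace Pool.Agent.TH957.WM

noncomputable section

set_option autoImplicit false

/-- the coefficient of the zeta values in the linear form -/
def rho (b h c n : ℕ) (ds : List ℕ) (i : ℕ) : ℚ :=
  ∑ k ∈ ss h c n, pa (ss h c n) (mu h n ds) (PP b h c n ds) k i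

theorem form_diff (b h c n : ℕ) (ds : List ℕ) (hn : 1 ≤ n)
    (hc : ∀ d ∈ ds, c < d) (h2 : ∀ d ∈ ds, 2 * d < h) (hlen : 3 ≤ ds.length)
    (hdeg : 2 * b * c ≤ (ds.map fun d => h - 2 * d).sum) (β : ℕ) (hβ : β + 1 ≤ b) (w U : ℕ → ℚ) :
    ∃ F : ℝ, HasSum (fun t => ∑ δ ∈ Finset.range (β + 1), (w δ : ℝ) * tm b h c n ds δ t) F ∧
      ((xc b h c n ds β w U : ℚ) : ℝ) - F =
        ∑ i ∈ Finset.Icc 1 ds.length, ((rho b h c n ds i : ℚ) : ℝ) * ((U i : ℝ) - Zc β w i) := by
  refine ⟨_, hasSum_sum (s := Finset.range (β + 1)) fun δ hδ => (hasSum_tm b h c n ds hn hc h2 hlen hdeg δ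
    (by rw [Finset.mem_range] at hδ; omega)).mul_left _, ?_⟩
  unfold xc rho Zc
  push_cast
  simp only [Finset.mul_sum]
  rw [Finset.sum_comm (s := Finset.range (β + 1)), ← Finset.sum_sub_distrib]
  apply Finset.sum_congr rfl
  intro i hi
  set ρ : ℝ := ∑ k ∈ ss h c n, ((pa (ss h c n) (mu h n ds) (PP b h c n ds) k i : ℚ) : ℝ) with hρ
  rw [mul_sub, sub_sub, Finset.mul_sum, ← Finset.sum_add_distrib]
  congr 1
  apply Finset.sum_congr rfl
  intro δ _
  rw [← Finset.mul_sum]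
  ring

lemma sum_mu_le (h c n : ℕ) (ds : List ℕ) : ∑ k ∈ ss h c n, mu h n ds k ≤ (h * n + 1) * ds.length := by
  calc _ ≤ ∑ k ∈ ss h c n, ds.length := Finset.sum_le_sum fun k _ => mu_le_length h n ds k
    _ = (ss h c n).card * ds.length := by rw [Finset.sum_const, smul_eq_mul]
    _ ≤ (h * n + 1) * ds.length := by
        apply Nat.mul_le_mul_right
        unfold ss
        rw [Nat.card_Icc]
        omega

theorem rho_bound (b h c : ℕ) (ds : List ℕ) (hc : ∀ d ∈ ds, c < d) (h2 : ∀ d ∈ ds, 2 * d < h)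
    (ε : ℝ) (hε : 0 < ε) :
    ∀ᶠ n : ℕ in atTop, ∑ i ∈ Finset.Icc 1 ds.length, |((rho b h c n ds i : ℚ) : ℝ)| ≤
      Real.exp (n * ((b * h + (ds.map fun d => h - 2 * d).sum : ℕ) * Real.log 2 + ε)) := by
  set r := ds.length with hr
  set W : ℕ := b * h + (ds.map fun d => h - 2 * d).sum with hW
  set M0 : ℝ := 1 + 2 * b * c + r * (h + 1) with hM0
  set K : ℝ := r * (h + 1) * (h + 2) * M0 ^ r with hK
  have hM00 : 0 ≤ M0 := by rw [hM0]; positivity
  have hK0 : 0 ≤ K := by rw [hK]; positivity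
  filter_upwards [poly_exp K hK0 (2 + r) ε hε, eventually_ge_atTop 1] with n hpoly hn
  have hn1 : (1 : ℝ) ≤ n := by exact_mod_cast hn
  have key : ∀ i, |((rho b h c n ds i : ℚ) : ℝ)| ≤
      ((h + 1) * n) * (2 ^ (W * n) * ((h + 2) * n) * (M0 * n) ^ r) := by
    intro i
    have h3 : ∀ k ∈ ss h c n, |((pa (ss h c n) (mu h n ds) (PP b h c n ds) k i : ℚ) : ℝ)| ≤
        2 ^ (W * n) * ((h + 2) * n) * (M0 * n) ^ r := by
      intro k hk
      have h4 := pa_le b h c n ds hn hc h2 hk i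
      have h5 : |((pa (ss h c n) (mu h n ds) (PP b h c n ds) k i : ℚ) : ℝ)| ≤
          2 ^ (W * n) * ((h : ℝ) * n + 2) *
            (1 + 2 * b * (c * n) + ((∑ m ∈ ss h c n, mu h n ds m : ℕ) : ℝ)) ^ r := by
        have : ((|pa (ss h c n) (mu h n ds) (PP b h c n ds) k i| : ℚ) : ℝ) ≤
          ((2 ^ (W * n) * ((h : ℚ) * n + 2) *
            (1 + 2 * b * (c * n) + ∑ m ∈ ss h c n, mu h n ds m : ℚ) ^ r : ℚ) : ℝ) := by exact_mod_cast h4
        push_cast at this
        push_cast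
        exact this
      refine h5.trans ?_
      have h6 : ((∑ m ∈ ss h c n, mu h n ds m : ℕ) : ℝ) ≤ (((h * n + 1) * r : ℕ) : ℝ) := by
        exact_mod_cast sum_mu_le h c n ds
      have h7 : 1 + 2 * b * (c * n) + ((∑ m ∈ ss h c n, mu h n ds m : ℕ) : ℝ) ≤ M0 * n := by
        rw [hM0]
        push_cast at h6 ⊢
        have h8 : (0 : ℝ) ≤ r := by positivity
        have h9 : (0 : ℝ) ≤ b * c := by positivity
        nlinarith
      have h8 : (h : ℝ) * n + 2 ≤ (h + 2) * n := by nlinarith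
      have h9 : 0 ≤ 1 + 2 * b * (c * n) + ((∑ m ∈ ss h c n, mu h n ds m : ℕ) : ℝ) := by positivity
      gcongr
    unfold rho
    push_cast
    calc _ ≤ ∑ k ∈ ss h c n, |((pa (ss h c n) (mu h n ds) (PP b h c n ds) k i : ℚ) : ℝ)| :=
          Finset.abs_sum_le_sum_abs _ _
      _ ≤ ∑ k ∈ ss h c n, 2 ^ (W * n) * ((h + 2) * n) * (M0 * n) ^ r := Finset.sum_le_sum h3
      _ = ((ss h c n).card : ℝ) * (2 ^ (W * n) * ((h + 2) * n) * (M0 * n) ^ r) := by
          rw [Finset.sum_const, nsmul_eq_mul]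
      _ ≤ ((h + 1) * n) * (2 ^ (W * n) * ((h + 2) * n) * (M0 * n) ^ r) := by
          apply mul_le_mul_of_nonneg_right _ (by positivity)
          have h4 : (ss h c n).card ≤ h * n + 1 := by
            unfold ss
            rw [Nat.card_Icc]
            omega
          have h5 : ((ss h c n).card : ℝ) ≤ ((h * n + 1 : ℕ) : ℝ) := by exact_mod_cast h4
          push_cast at h5
          nlinarith
  calc _ ≤ ∑ i ∈ Finset.Icc 1 r, ((h + 1) * n) * (2 ^ (W * n) * ((h + 2) * n) * (M0 * n) ^ r) :=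
        Finset.sum_le_sum fun i _ => key i
    _ = (K * (n : ℝ) ^ (2 + r)) * 2 ^ (W * n) := by
        rw [Finset.sum_const, Nat.card_Icc, nsmul_eq_mul, Nat.add_sub_cancel, hK, mul_pow, pow_add]
        ring
    _ ≤ Real.exp (ε * n) * 2 ^ (W * n) := mul_le_mul_of_nonneg_right hpoly (by positivity)
    _ = _ := by
        have e : (2 : ℝ) ^ (W * n) = Real.exp (n * ((W : ℝ) * Real.log 2)) := by
          rw [show (n : ℝ) * ((W : ℝ) * Real.log 2) =
            ((W * n : ℕ) : ℝ) * Real.log 2 by push_cast; ring, Real.exp_nat_mul,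
            Real.exp_log (by norm_num)]
        rw [e, ← Real.exp_add]
        congr 1
        ring

end

end Pool.Agent.TH957.WM
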