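import Pool.Agent.TH957.WM.Fam
import Pool.Agent.H337R2.Un3
import Pool.Agent.H337R2.Un5
import Pool.Agent.H337R2.Un7
import Pool.Agent.H337R2.Un9

/-!
# The windows with explicit exponents
-/

open Polynomial Filter Topology Pool.Agent.H337R2 Pool.Agent.W339.ZC

namespace Pool.Agent.TH957.WM

noncomputable section

set_option autoImplicit false

lemma sizeA {g0 s0 m : ℝ} (hm : 0 ≤ m) (hs0 : 0 ≤ s0) :
    g0 + m * 1103.3 + (s0 + m * 2084) * Real.log 2 ≤ (g0 + s0 * 0.6931472) + m * 2547.82 := by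
  have hlog : Real.log 2 ≤ 0.6931472 := by
    have := Real.log_two_lt_d9
    norm_num at this ⊢
    linarith
  have h2 : (s0 + m * 2084) * Real.log 2 ≤ (s0 + m * 2084) * 0.6931472 :=
    mul_le_mul_of_nonneg_left hlog (by positivity)
  nlinarith

lemma numeric {g0 t0 s0 b0 m : ℝ} (hm : 0 ≤ m) (ht : 0 < t0)
    (h0 : (23 + 11 * t0) * (g0 + s0 * 0.6931472) < 23 * (168 * b0 - 1 / 2) * t0)
    (h1 : (23 + 11 * t0) * 2547.82 + 11 * 2.7 * (g0 + s0 * 0.6931472) ≤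
      23 * (1344 * t0 + 2.7 * (168 * b0 - 1 / 2)))
    (hs0 : 0 ≤ s0) :
    (1 / (t0 + m * 2.7) + 22 / 46) * (g0 + m * 1103.3 + (s0 + m * 2084) * Real.log 2) <
      168 * (b0 + 8 * m) - 1 / 2 := by
  have hτ : 0 < t0 + m * 2.7 := by positivity
  have hA := sizeA (g0 := g0) hm hs0
  have hpos : 0 < 1 / (t0 + m * 2.7) + 22 / 46 := by positivity
  refine lt_of_le_of_lt (mul_le_mul_of_nonneg_left hA hpos.le) ?_
  have e : 1 / (t0 + m * 2.7) + 22 / 46 = (23 + 11 * (t0 + m * 2.7)) / (23 * (t0 + m * 2.7)) := by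
    field_simp
    ring
  rw [e, div_mul_eq_mul_div, div_lt_iff₀ (by positivity)]
  set A := g0 + s0 * 0.6931472 with hAdef
  have h3 := mul_le_mul_of_nonneg_right h1 hm
  have h4 : (23 + 11 * (t0 + m * 2.7)) * (A + m * 2547.82) =
      (23 + 11 * t0) * A + ((23 + 11 * t0) * 2547.82 + 11 * 2.7 * A) * m + (11 * 2.7 * 2547.82) * m ^ 2 := by ring
  have h5 : (168 * (b0 + 8 * m) - 1 / 2) * (23 * (t0 + m * 2.7)) =
      23 * (168 * b0 - 1 / 2) * t0 + 23 * (1344 * t0 + 2.7 * (168 * b0 - 1 / 2)) * m + (168 * 23 * 8 * 2.7) * m ^ 2 := by ring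
  rw [h4, h5]
  have h6 : 0 ≤ m ^ 2 := sq_nonneg m
  nlinarith

lemma numericF {g0 t0 s0 E0 e1 K m : ℝ} (hm : 0 ≤ m) (ht : 0 < t0) (hE0 : 0 < E0) (he1 : 0 ≤ e1)
    (h0 : (23 * E0 + 11 * t0) * (g0 + s0 * 0.6931472) < 23 * K * t0 * E0)
    (h1 : (23 * E0 + 11 * t0) * 2547.82 + (23 * e1 + 29.7) * (g0 + s0 * 0.6931472) ≤ 23 * K * (t0 * e1 + 2.7 * E0))
    (h2 : (23 * e1 + 29.7) * 2547.82 ≤ 23 * K * 2.7 * e1)
    (hs0 : 0 ≤ s0) :
    (1 / (t0 + m * 2.7) + 22 / (E0 + e1 * m) / 46) * (g0 + m * 1103.3 + (s0 + m * 2084) * Real.log 2) < K := by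
  have hτ : 0 < t0 + m * 2.7 := by positivity
  have hE : 0 < E0 + e1 * m := by positivity
  have hA := sizeA (g0 := g0) hm hs0
  have hpos : 0 < 1 / (t0 + m * 2.7) + 22 / (E0 + e1 * m) / 46 := by positivity
  refine lt_of_le_of_lt (mul_le_mul_of_nonneg_left hA hpos.le) ?_
  have e : 1 / (t0 + m * 2.7) + 22 / (E0 + e1 * m) / 46 =
      (23 * (E0 + e1 * m) + 11 * (t0 + m * 2.7)) / (23 * (t0 + m * 2.7) * (E0 + e1 * m)) := by
    field_simp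
    ring
  rw [e, div_mul_eq_mul_div, div_lt_iff₀ (by positivity)]
  set A := g0 + s0 * 0.6931472 with hAdef
  have h3 := mul_le_mul_of_nonneg_right h1 hm
  have h6 : 0 ≤ m ^ 2 := sq_nonneg m
  have h7 := mul_le_mul_of_nonneg_right h2 h6
  have h4 : (23 * (E0 + e1 * m) + 11 * (t0 + m * 2.7)) * (A + m * 2547.82) =
      (23 * E0 + 11 * t0) * A + ((23 * E0 + 11 * t0) * 2547.82 + (23 * e1 + 29.7) * A) * m +
        ((23 * e1 + 29.7) * 2547.82) * m ^ 2 := by ring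
  have h5 : K * (23 * (t0 + m * 2.7) * (E0 + e1 * m)) =
      23 * K * t0 * E0 + 23 * K * (t0 * e1 + 2.7 * E0) * m + (23 * K * 2.7 * e1) * m ^ 2 := by ring
  rw [h4, h5]
  linarith

/-- the numerical facts about the lists -/
lemma facts : (expd ubdm).length = 34 ∧ 8 * 120 + ((expd ubdm).map fun d => 120 - 2 * d).sum = 2084 ∧
    (expd ubdm).count 38 = 5 ∧ (120 - 38 - 36).totient = 22 := by
  refine ⟨by decide +kernel, by decide +kernel, by decide +kernel, by decide +kernel⟩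

theorem fam3 (m : ℕ) :
    (∀ᶠ q : ℕ in atTop, ∀ w : ℕ → ℤ, (∀ δ, δ < 3 + 8 * m → |w δ| ≤ q) → (∃ δ, δ < 3 + 8 * m ∧ w δ ≠ 0) →
      ∀ P : ℕ → ℤ, ∃ i, Odd i ∧ 3 ≤ i ∧ i ≤ 14 + m * 34 ∧
      (q : ℝ) ^ (-(168 * ((3 + 8 * m : ℕ) : ℝ) - 1 / 2)) ≤ |Zc (3 + 8 * m - 1) (fun δ => (w δ : ℚ)) i - P i|) ∧
    (∀ β : ℕ, β + 1 ≤ 3 + 8 * m → ∀ A : ℕ → ℤ, A β ≠ 0 →
      ∀ᶠ q : ℕ in atTop, ∀ P : ℕ → ℤ, ∃ i, Odd i ∧ 3 ≤ i ∧ i ≤ 14 + m * 34 ∧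
      (q : ℝ) ^ (-(1187.9 : ℝ)) ≤ |q * Zc β (fun δ => (A δ : ℚ)) i - P i|) ∧
    (∀ A : ℕ → ℤ, A (3 + 8 * m - 1) ≠ 0 →
      ∀ᶠ q : ℕ in atTop, ∀ P : ℕ → ℤ, ∃ i, Odd i ∧ 3 ≤ i ∧ i ≤ 14 + m * 34 ∧
      (q : ℝ) ^ (-(1037.9 : ℝ)) ≤ |q * Zc (3 + 8 * m - 1) (fun δ => (A δ : ℚ)) i - P i|) ∧
    (m ≤ 1 → ∀ A : ℕ → ℤ, A (3 + 8 * m - 1) ≠ 0 →
      ∀ᶠ q : ℕ in atTop, ∀ P : ℕ → ℤ, ∃ i, Odd i ∧ 3 ≤ i ∧ i ≤ 14 + m * 34 ∧
      (q : ℝ) ^ (-(64 * ((3 + 8 * m : ℕ) : ℝ) - 1 / 10)) ≤ |q * Zc (3 + 8 * m - 1) (fun δ => (A δ : ℚ)) i - P i|) := by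
  obtain ⟨hB, sB, cB, htot⟩ := facts
  have h3 : (expd u3dm).length = 14 := by decide +kernel
  have s3 : 3 * 120 + ((expd u3dm).map fun d => 120 - 2 * d).sum = 794 := by decide +kernel
  have c3 : (expd u3dm).count 38 = 1 := by decide +kernel
  have hm0 : (0 : ℝ) ≤ m := by positivity
  obtain ⟨k1, k2⟩ := certU_measure u3cert m 386.9 1103.3 (by decide +kernel) (by decide +kernel) (by norm_num) (by norm_num)
    (23.1 + m * 2.7) (by positivity) (by push_cast; norm_num)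
  rw [htot, s3, sB, h3, hB] at k1
  rw [htot, s3, sB, h3, hB, c3, cB] at k2
  refine ⟨?_, ?_, ?_, ?_⟩
  · refine k1 _ ?_
    have := numeric (g0 := 386.9) (t0 := 23.1) (s0 := 794) (b0 := 3) hm0 (by norm_num) (by norm_num) (by norm_num) (by norm_num)
    push_cast
    norm_num at this ⊢
    linarith
  · intro β hβ A hA
    refine k2 β hβ (1 + m * 5) (by omega) (by omega) A hA _ ?_
    have := numericF (g0 := 386.9) (t0 := 23.1) (s0 := 794) (E0 := 1) (e1 := 5) (K := 1187.9) hm0 (by norm_num)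
      (by norm_num) (by norm_num) (by norm_num) (by norm_num) (by norm_num) (by norm_num)
    push_cast
    rw [mul_comm (m : ℝ) 5]
    norm_num at this ⊢
    linarith
  · intro A hA
    refine k2 _ (by omega) (3 + m * 13) (by omega) (by omega) A hA _ ?_
    have := numericF (g0 := 386.9) (t0 := 23.1) (s0 := 794) (E0 := 3) (e1 := 13) (K := 1037.9) hm0 (by norm_num)
      (by norm_num) (by norm_num) (by norm_num) (by norm_num) (by norm_num) (by norm_num)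
    push_cast
    rw [mul_comm (m : ℝ) 13]
    norm_num at this ⊢
    linarith
  · intro hm1 A hA
    refine k2 _ (by omega) (3 + m * 13) (by omega) (by omega) A hA _ ?_
    have hA2 := sizeA (g0 := 386.9) (s0 := 794) hm0 (by norm_num)
    have hm2 : m = 0 ∨ m = 1 := by omega
    rcases hm2 with rfl | rfl
    · push_cast at hA2 ⊢
      norm_num at hA2 ⊢
      linarith
    · push_cast at hA2 ⊢
      norm_num at hA2 ⊢
      linarith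

theorem fam5 (m : ℕ) :
    (∀ᶠ q : ℕ in atTop, ∀ w : ℕ → ℤ, (∀ δ, δ < 5 + 8 * m → |w δ| ≤ q) → (∃ δ, δ < 5 + 8 * m ∧ w δ ≠ 0) →
      ∀ P : ℕ → ℤ, ∃ i, Odd i ∧ 3 ≤ i ∧ i ≤ 22 + m * 34 ∧
      (q : ℝ) ^ (-(168 * ((5 + 8 * m : ℕ) : ℝ) - 1 / 2)) ≤ |Zc (5 + 8 * m - 1) (fun δ => (w δ : ℚ)) i - P i|) ∧
    (∀ β : ℕ, β + 1 ≤ 5 + 8 * m → ∀ A : ℕ → ℤ, A β ≠ 0 →
      ∀ᶠ q : ℕ in atTop, ∀ P : ℕ → ℤ, ∃ i, Odd i ∧ 3 ≤ i ∧ i ≤ 22 + m * 34 ∧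
      (q : ℝ) ^ (-(1187.9 : ℝ)) ≤ |q * Zc β (fun δ => (A δ : ℚ)) i - P i|) ∧
    (∀ A : ℕ → ℤ, A (5 + 8 * m - 1) ≠ 0 →
      ∀ᶠ q : ℕ in atTop, ∀ P : ℕ → ℤ, ∃ i, Odd i ∧ 3 ≤ i ∧ i ≤ 22 + m * 34 ∧
      (q : ℝ) ^ (-(1037.9 : ℝ)) ≤ |q * Zc (5 + 8 * m - 1) (fun δ => (A δ : ℚ)) i - P i|) ∧
    (m ≤ 1 → ∀ A : ℕ → ℤ, A (5 + 8 * m - 1) ≠ 0 →
      ∀ᶠ q : ℕ in atTop, ∀ P : ℕ → ℤ, ∃ i, Odd i ∧ 3 ≤ i ∧ i ≤ 22 + m * 34 ∧
      (q : ℝ) ^ (-(64 * ((5 + 8 * m : ℕ) : ℝ) - 1 / 10)) ≤ |q * Zc (5 + 8 * m - 1) (fun δ => (A δ : ℚ)) i - P i|) := by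
  obtain ⟨hB, sB, cB, htot⟩ := facts
  have h3 : (expd u5dm).length = 22 := by decide +kernel
  have s3 : 5 * 120 + ((expd u5dm).map fun d => 120 - 2 * d).sum = 1314 := by decide +kernel
  have c3 : (expd u5dm).count 38 = 2 := by decide +kernel
  have hm0 : (0 : ℝ) ≤ m := by positivity
  obtain ⟨k1, k2⟩ := certU_measure u5cert m 658.21 1103.3 (by decide +kernel) (by decide +kernel) (by norm_num) (by norm_num)
    (20.79 + m * 2.7) (by positivity) (by push_cast; norm_num)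
  rw [htot, s3, sB, h3, hB] at k1
  rw [htot, s3, sB, h3, hB, c3, cB] at k2
  refine ⟨?_, ?_, ?_, ?_⟩
  · refine k1 _ ?_
    have := numeric (g0 := 658.21) (t0 := 20.79) (s0 := 1314) (b0 := 5) hm0 (by norm_num) (by norm_num) (by norm_num) (by norm_num)
    push_cast
    norm_num at this ⊢
    linarith
  · intro β hβ A hA
    refine k2 β hβ (2 + m * 5) (by omega) (by omega) A hA _ ?_
    have := numericF (g0 := 658.21) (t0 := 20.79) (s0 := 1314) (E0 := 2) (e1 := 5) (K := 1187.9) hm0 (by norm_num)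
      (by norm_num) (by norm_num) (by norm_num) (by norm_num) (by norm_num) (by norm_num)
    push_cast
    rw [mul_comm (m : ℝ) 5]
    norm_num at this ⊢
    linarith
  · intro A hA
    refine k2 _ (by omega) (6 + m * 13) (by omega) (by omega) A hA _ ?_
    have := numericF (g0 := 658.21) (t0 := 20.79) (s0 := 1314) (E0 := 6) (e1 := 13) (K := 1037.9) hm0 (by norm_num)
      (by norm_num) (by norm_num) (by norm_num) (by norm_num) (by norm_num) (by norm_num)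
    push_cast
    rw [mul_comm (m : ℝ) 13]
    norm_num at this ⊢
    linarith
  · intro hm1 A hA
    refine k2 _ (by omega) (6 + m * 13) (by omega) (by omega) A hA _ ?_
    have hA2 := sizeA (g0 := 658.21) (s0 := 1314) hm0 (by norm_num)
    have hm2 : m = 0 ∨ m = 1 := by omega
    rcases hm2 with rfl | rfl
    · push_cast at hA2 ⊢
      norm_num at hA2 ⊢
      linarith
    · push_cast at hA2 ⊢
      norm_num at hA2 ⊢
      linarith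

theorem fam7 (m : ℕ) :
    (∀ᶠ q : ℕ in atTop, ∀ w : ℕ → ℤ, (∀ δ, δ < 7 + 8 * m → |w δ| ≤ q) → (∃ δ, δ < 7 + 8 * m ∧ w δ ≠ 0) →
      ∀ P : ℕ → ℤ, ∃ i, Odd i ∧ 3 ≤ i ∧ i ≤ 30 + m * 34 ∧
      (q : ℝ) ^ (-(168 * ((7 + 8 * m : ℕ) : ℝ) - 1 / 2)) ≤ |Zc (7 + 8 * m - 1) (fun δ => (w δ : ℚ)) i - P i|) ∧
    (∀ β : ℕ, β + 1 ≤ 7 + 8 * m → ∀ A : ℕ → ℤ, A β ≠ 0 →
      ∀ᶠ q : ℕ in atTop, ∀ P : ℕ → ℤ, ∃ i, Odd i ∧ 3 ≤ i ∧ i ≤ 30 + m * 34 ∧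
      (q : ℝ) ^ (-(1187.9 : ℝ)) ≤ |q * Zc β (fun δ => (A δ : ℚ)) i - P i|) ∧
    (∀ A : ℕ → ℤ, A (7 + 8 * m - 1) ≠ 0 →
      ∀ᶠ q : ℕ in atTop, ∀ P : ℕ → ℤ, ∃ i, Odd i ∧ 3 ≤ i ∧ i ≤ 30 + m * 34 ∧
      (q : ℝ) ^ (-(1037.9 : ℝ)) ≤ |q * Zc (7 + 8 * m - 1) (fun δ => (A δ : ℚ)) i - P i|) ∧
    (m ≤ 1 → ∀ A : ℕ → ℤ, A (7 + 8 * m - 1) ≠ 0 →
      ∀ᶠ q : ℕ in atTop, ∀ P : ℕ → ℤ, ∃ i, Odd i ∧ 3 ≤ i ∧ i ≤ 30 + m * 34 ∧
      (q : ℝ) ^ (-(64 * ((7 + 8 * m : ℕ) : ℝ) - 1 / 10)) ≤ |q * Zc (7 + 8 * m - 1) (fun δ => (A δ : ℚ)) i - P i|) := by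
  obtain ⟨hB, sB, cB, htot⟩ := facts
  have h3 : (expd u7dm).length = 30 := by decide +kernel
  have s3 : 7 * 120 + ((expd u7dm).map fun d => 120 - 2 * d).sum = 1792 := by decide +kernel
  have c3 : (expd u7dm).count 38 = 3 := by decide +kernel
  have hm0 : (0 : ℝ) ≤ m := by positivity
  obtain ⟨k1, k2⟩ := certU_measure u7cert m 894.63 1103.3 (by decide +kernel) (by decide +kernel) (by norm_num) (by norm_num)
    (18.37 + m * 2.7) (by positivity) (by push_cast; norm_num)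
  rw [htot, s3, sB, h3, hB] at k1
  rw [htot, s3, sB, h3, hB, c3, cB] at k2
  refine ⟨?_, ?_, ?_, ?_⟩
  · refine k1 _ ?_
    have := numeric (g0 := 894.63) (t0 := 18.37) (s0 := 1792) (b0 := 7) hm0 (by norm_num) (by norm_num) (by norm_num) (by norm_num)
    push_cast
    norm_num at this ⊢
    linarith
  · intro β hβ A hA
    refine k2 β hβ (3 + m * 5) (by omega) (by omega) A hA _ ?_
    have := numericF (g0 := 894.63) (t0 := 18.37) (s0 := 1792) (E0 := 3) (e1 := 5) (K := 1187.9) hm0 (by norm_num)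
      (by norm_num) (by norm_num) (by norm_num) (by norm_num) (by norm_num) (by norm_num)
    push_cast
    rw [mul_comm (m : ℝ) 5]
    norm_num at this ⊢
    linarith
  · intro A hA
    refine k2 _ (by omega) (9 + m * 13) (by omega) (by omega) A hA _ ?_
    have := numericF (g0 := 894.63) (t0 := 18.37) (s0 := 1792) (E0 := 9) (e1 := 13) (K := 1037.9) hm0 (by norm_num)
      (by norm_num) (by norm_num) (by norm_num) (by norm_num) (by norm_num) (by norm_num)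
    push_cast
    rw [mul_comm (m : ℝ) 13]
    norm_num at this ⊢
    linarith
  · intro hm1 A hA
    refine k2 _ (by omega) (9 + m * 13) (by omega) (by omega) A hA _ ?_
    have hA2 := sizeA (g0 := 894.63) (s0 := 1792) hm0 (by norm_num)
    have hm2 : m = 0 ∨ m = 1 := by omega
    rcases hm2 with rfl | rfl
    · push_cast at hA2 ⊢
      norm_num at hA2 ⊢
      linarith
    · push_cast at hA2 ⊢
      norm_num at hA2 ⊢
      linarith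

theorem fam9 (m : ℕ) :
    (∀ᶠ q : ℕ in atTop, ∀ w : ℕ → ℤ, (∀ δ, δ < 9 + 8 * m → |w δ| ≤ q) → (∃ δ, δ < 9 + 8 * m ∧ w δ ≠ 0) →
      ∀ P : ℕ → ℤ, ∃ i, Odd i ∧ 3 ≤ i ∧ i ≤ 40 + m * 34 ∧
      (q : ℝ) ^ (-(168 * ((9 + 8 * m : ℕ) : ℝ) - 1 / 2)) ≤ |Zc (9 + 8 * m - 1) (fun δ => (w δ : ℚ)) i - P i|) ∧
    (∀ β : ℕ, β + 1 ≤ 9 + 8 * m → ∀ A : ℕ → ℤ, A β ≠ 0 →
      ∀ᶠ q : ℕ in atTop, ∀ P : ℕ → ℤ, ∃ i, Odd i ∧ 3 ≤ i ∧ i ≤ 40 + m * 34 ∧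
      (q : ℝ) ^ (-(1187.9 : ℝ)) ≤ |q * Zc β (fun δ => (A δ : ℚ)) i - P i|) ∧
    (∀ A : ℕ → ℤ, A (9 + 8 * m - 1) ≠ 0 →
      ∀ᶠ q : ℕ in atTop, ∀ P : ℕ → ℤ, ∃ i, Odd i ∧ 3 ≤ i ∧ i ≤ 40 + m * 34 ∧
      (q : ℝ) ^ (-(1037.9 : ℝ)) ≤ |q * Zc (9 + 8 * m - 1) (fun δ => (A δ : ℚ)) i - P i|) ∧
    (m ≤ 1 → ∀ A : ℕ → ℤ, A (9 + 8 * m - 1) ≠ 0 →
      ∀ᶠ q : ℕ in atTop, ∀ P : ℕ → ℤ, ∃ i, Odd i ∧ 3 ≤ i ∧ i ≤ 40 + m * 34 ∧
      (q : ℝ) ^ (-(64 * ((9 + 8 * m : ℕ) : ℝ) - 1 / 10)) ≤ |q * Zc (9 + 8 * m - 1) (fun δ => (A δ : ℚ)) i - P i|) := by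
  obtain ⟨hB, sB, cB, htot⟩ := facts
  have h3 : (expd u9dm).length = 40 := by decide +kernel
  have s3 : 9 * 120 + ((expd u9dm).map fun d => 120 - 2 * d).sum = 2412 := by decide +kernel
  have c3 : (expd u9dm).count 38 = 6 := by decide +kernel
  have hm0 : (0 : ℝ) ≤ m := by positivity
  obtain ⟨k1, k2⟩ := certU_measure u9cert m 1252.31 1103.3 (by decide +kernel) (by decide +kernel) (by norm_num) (by norm_num)
    (31.69 + m * 2.7) (by positivity) (by push_cast; norm_num)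
  rw [htot, s3, sB, h3, hB] at k1
  rw [htot, s3, sB, h3, hB, c3, cB] at k2
  refine ⟨?_, ?_, ?_, ?_⟩
  · refine k1 _ ?_
    have := numeric (g0 := 1252.31) (t0 := 31.69) (s0 := 2412) (b0 := 9) hm0 (by norm_num) (by norm_num) (by norm_num) (by norm_num)
    push_cast
    norm_num at this ⊢
    linarith
  · intro β hβ A hA
    refine k2 β hβ (6 + m * 5) (by omega) (by omega) A hA _ ?_
    have := numericF (g0 := 1252.31) (t0 := 31.69) (s0 := 2412) (E0 := 6) (e1 := 5) (K := 1187.9) hm0 (by norm_num)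
      (by norm_num) (by norm_num) (by norm_num) (by norm_num) (by norm_num) (by norm_num)
    push_cast
    rw [mul_comm (m : ℝ) 5]
    norm_num at this ⊢
    linarith
  · intro A hA
    refine k2 _ (by omega) (14 + m * 13) (by omega) (by omega) A hA _ ?_
    have := numericF (g0 := 1252.31) (t0 := 31.69) (s0 := 2412) (E0 := 14) (e1 := 13) (K := 1037.9) hm0 (by norm_num)
      (by norm_num) (by norm_num) (by norm_num) (by norm_num) (by norm_num) (by norm_num)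
    push_cast
    rw [mul_comm (m : ℝ) 13]
    norm_num at this ⊢
    linarith
  · intro hm1 A hA
    refine k2 _ (by omega) (14 + m * 13) (by omega) (by omega) A hA _ ?_
    have hA2 := sizeA (g0 := 1252.31) (s0 := 2412) hm0 (by norm_num)
    have hm2 : m = 0 ∨ m = 1 := by omega
    rcases hm2 with rfl | rfl
    · push_cast at hA2 ⊢
      norm_num at hA2 ⊢
      linarith
    · push_cast at hA2 ⊢
      norm_num at hA2 ⊢
      linarith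

/-- the windows -/
theorem window (b : ℕ) (hb : Odd b) (hb3 : 3 ≤ b) :
    (∀ᶠ q : ℕ in atTop, ∀ w : ℕ → ℤ, (∀ δ, δ < b → |w δ| ≤ q) → (∃ δ, δ < b ∧ w δ ≠ 0) → ∀ P : ℕ → ℤ,
      ∃ i, Odd i ∧ 3 ≤ i ∧ 4 * (i + b) ≤ 21 * b + 4 ∧
      (q : ℝ) ^ (-(168 * (b : ℝ) - 1 / 2)) ≤ |Zc (b - 1) (fun δ => (w δ : ℚ)) i - P i|) ∧
    (∀ β : ℕ, β + 1 ≤ b → ∀ A : ℕ → ℤ, A β ≠ 0 →
      ∀ᶠ q : ℕ in atTop, ∀ P : ℕ → ℤ, ∃ i, Odd i ∧ 3 ≤ i ∧ 4 * (i + b) ≤ 21 * b + 4 ∧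
      (q : ℝ) ^ (-(1187.9 : ℝ)) ≤ |q * Zc β (fun δ => (A δ : ℚ)) i - P i|) ∧
    (∀ A : ℕ → ℤ, A (b - 1) ≠ 0 →
      ∀ᶠ q : ℕ in atTop, ∀ P : ℕ → ℤ, ∃ i, Odd i ∧ 3 ≤ i ∧ 4 * (i + b) ≤ 21 * b + 4 ∧
      (q : ℝ) ^ (-(min (64 * (b : ℝ)) 1038 - 1 / 10)) ≤ |q * Zc (b - 1) (fun δ => (A δ : ℚ)) i - P i|) := by
  obtain ⟨k, hk⟩ := hb
  have hcase : ∃ m : ℕ, b = 3 + 8 * m ∨ b = 5 + 8 * m ∨ b = 7 + 8 * m ∨ b = 9 + 8 * m := by
    refine ⟨(b - 3) / 8, ?_⟩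
    omega
  obtain ⟨m, h | h | h | h⟩ := hcase
  · obtain ⟨k1, k2, k3, k4⟩ := fam3 m
    subst h
    refine ⟨?_, fun β hβ A hA => ?_, fun A hA => ?_⟩
    · filter_upwards [k1] with q hq w hw1 hw2 P
      obtain ⟨i, ⟨j, hj⟩, hi3, hi, hirr⟩ := hq w hw1 hw2 P
      exact ⟨i, ⟨j, hj⟩, hi3, by omega, hirr⟩
    · filter_upwards [k2 β hβ A hA] with q hq P
      obtain ⟨i, ⟨j, hj⟩, hi3, hi, hirr⟩ := hq P
      exact ⟨i, ⟨j, hj⟩, hi3, by omega, hirr⟩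
    · by_cases hm : m ≤ 1
      · filter_upwards [k3 A hA, k4 hm A hA] with q hq hq' P
        rcases le_total (64 * (((3 + 8 * m : ℕ)) : ℝ)) 1038 with h | h
        · rw [min_eq_left h]
          obtain ⟨i, ⟨j, hj⟩, hi3, hi, hirr⟩ := hq' P
          exact ⟨i, ⟨j, hj⟩, hi3, by omega, hirr⟩
        · rw [min_eq_right h, show (1038 : ℝ) - 1 / 10 = 1037.9 by norm_num]
          obtain ⟨i, ⟨j, hj⟩, hi3, hi, hirr⟩ := hq P
          exact ⟨i, ⟨j, hj⟩, hi3, by omega, hirr⟩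
      · filter_upwards [k3 A hA] with q hq P
        have h : (1038 : ℝ) ≤ 64 * (((3 + 8 * m : ℕ)) : ℝ) := by
          have : (2 : ℝ) ≤ m := by exact_mod_cast (by omega : 2 ≤ m)
          push_cast
          linarith
        rw [min_eq_right h, show (1038 : ℝ) - 1 / 10 = 1037.9 by norm_num]
        obtain ⟨i, ⟨j, hj⟩, hi3, hi, hirr⟩ := hq P
        exact ⟨i, ⟨j, hj⟩, hi3, by omega, hirr⟩
  · obtain ⟨k1, k2, k3, k4⟩ := fam5 m
    subst h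
    refine ⟨?_, fun β hβ A hA => ?_, fun A hA => ?_⟩
    · filter_upwards [k1] with q hq w hw1 hw2 P
      obtain ⟨i, ⟨j, hj⟩, hi3, hi, hirr⟩ := hq w hw1 hw2 P
      exact ⟨i, ⟨j, hj⟩, hi3, by omega, hirr⟩
    · filter_upwards [k2 β hβ A hA] with q hq P
      obtain ⟨i, ⟨j, hj⟩, hi3, hi, hirr⟩ := hq P
      exact ⟨i, ⟨j, hj⟩, hi3, by omega, hirr⟩
    · by_cases hm : m ≤ 1
      · filter_upwards [k3 A hA, k4 hm A hA] with q hq hq' P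
        rcases le_total (64 * (((5 + 8 * m : ℕ)) : ℝ)) 1038 with h | h
        · rw [min_eq_left h]
          obtain ⟨i, ⟨j, hj⟩, hi3, hi, hirr⟩ := hq' P
          exact ⟨i, ⟨j, hj⟩, hi3, by omega, hirr⟩
        · rw [min_eq_right h, show (1038 : ℝ) - 1 / 10 = 1037.9 by norm_num]
          obtain ⟨i, ⟨j, hj⟩, hi3, hi, hirr⟩ := hq P
          exact ⟨i, ⟨j, hj⟩, hi3, by omega, hirr⟩
      · filter_upwards [k3 A hA] with q hq P
        have h : (1038 : ℝ) ≤ 64 * (((5 + 8 * m : ℕ)) : ℝ) := by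
          have : (2 : ℝ) ≤ m := by exact_mod_cast (by omega : 2 ≤ m)
          push_cast
          linarith
        rw [min_eq_right h, show (1038 : ℝ) - 1 / 10 = 1037.9 by norm_num]
        obtain ⟨i, ⟨j, hj⟩, hi3, hi, hirr⟩ := hq P
        exact ⟨i, ⟨j, hj⟩, hi3, by omega, hirr⟩
  · obtain ⟨k1, k2, k3, k4⟩ := fam7 m
    subst h
    refine ⟨?_, fun β hβ A hA => ?_, fun A hA => ?_⟩
    · filter_upwards [k1] with q hq w hw1 hw2 P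
      obtain ⟨i, ⟨j, hj⟩, hi3, hi, hirr⟩ := hq w hw1 hw2 P
      exact ⟨i, ⟨j, hj⟩, hi3, by omega, hirr⟩
    · filter_upwards [k2 β hβ A hA] with q hq P
      obtain ⟨i, ⟨j, hj⟩, hi3, hi, hirr⟩ := hq P
      exact ⟨i, ⟨j, hj⟩, hi3, by omega, hirr⟩
    · by_cases hm : m ≤ 1
      · filter_upwards [k3 A hA, k4 hm A hA] with q hq hq' P
        rcases le_total (64 * (((7 + 8 * m : ℕ)) : ℝ)) 1038 with h | h
        · rw [min_eq_left h]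
          obtain ⟨i, ⟨j, hj⟩, hi3, hi, hirr⟩ := hq' P
          exact ⟨i, ⟨j, hj⟩, hi3, by omega, hirr⟩
        · rw [min_eq_right h, show (1038 : ℝ) - 1 / 10 = 1037.9 by norm_num]
          obtain ⟨i, ⟨j, hj⟩, hi3, hi, hirr⟩ := hq P
          exact ⟨i, ⟨j, hj⟩, hi3, by omega, hirr⟩
      · filter_upwards [k3 A hA] with q hq P
        have h : (1038 : ℝ) ≤ 64 * (((7 + 8 * m : ℕ)) : ℝ) := by
          have : (2 : ℝ) ≤ m := by exact_mod_cast (by omega : 2 ≤ m)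
          push_cast
          linarith
        rw [min_eq_right h, show (1038 : ℝ) - 1 / 10 = 1037.9 by norm_num]
        obtain ⟨i, ⟨j, hj⟩, hi3, hi, hirr⟩ := hq P
        exact ⟨i, ⟨j, hj⟩, hi3, by omega, hirr⟩
  · obtain ⟨k1, k2, k3, k4⟩ := fam9 m
    subst h
    refine ⟨?_, fun β hβ A hA => ?_, fun A hA => ?_⟩
    · filter_upwards [k1] with q hq w hw1 hw2 P
      obtain ⟨i, ⟨j, hj⟩, hi3, hi, hirr⟩ := hq w hw1 hw2 P
      exact ⟨i, ⟨j, hj⟩, hi3, by omega, hirr⟩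
    · filter_upwards [k2 β hβ A hA] with q hq P
      obtain ⟨i, ⟨j, hj⟩, hi3, hi, hirr⟩ := hq P
      exact ⟨i, ⟨j, hj⟩, hi3, by omega, hirr⟩
    · by_cases hm : m ≤ 1
      · filter_upwards [k3 A hA, k4 hm A hA] with q hq hq' P
        rcases le_total (64 * (((9 + 8 * m : ℕ)) : ℝ)) 1038 with h | h
        · rw [min_eq_left h]
          obtain ⟨i, ⟨j, hj⟩, hi3, hi, hirr⟩ := hq' P
          exact ⟨i, ⟨j, hj⟩, hi3, by omega, hirr⟩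
        · rw [min_eq_right h, show (1038 : ℝ) - 1 / 10 = 1037.9 by norm_num]
          obtain ⟨i, ⟨j, hj⟩, hi3, hi, hirr⟩ := hq P
          exact ⟨i, ⟨j, hj⟩, hi3, by omega, hirr⟩
      · filter_upwards [k3 A hA] with q hq P
        have h : (1038 : ℝ) ≤ 64 * (((9 + 8 * m : ℕ)) : ℝ) := by
          have : (2 : ℝ) ≤ m := by exact_mod_cast (by omega : 2 ≤ m)
          push_cast
          linarith
        rw [min_eq_right h, show (1038 : ℝ) - 1 / 10 = 1037.9 by norm_num]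
        obtain ⟨i, ⟨j, hj⟩, hi3, hi, hirr⟩ := hq P
        exact ⟨i, ⟨j, hj⟩, hi3, by omega, hirr⟩

end

end Pool.Agent.TH957.WM
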